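import Pool.Agent.Q284.PS.Stm0

/-!
# Project PS: statements, part 1 (characters, sieve, the operator form of Gallagher's theorem)

All constants are absolute (uniform in the finite field).  `q = qq F ≥ 2`.
-/

set_option autoImplicit false

open Finset Polynomial ComplexConjugate
open Pool.Agent.H341R2.Sharp (Mon)

namespace Pool.Agent.Q284.PS

/-- **HC** (closure; easy).  For `IsCoprime f (Q * Q')` use `IsCoprime.mul_right_iff`; the other points are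
immediate from the definition.  (For the last two: same level.) -/
def S_HC : Prop := ∀ (F : Type) [Field F] (Q Q' : F[X]) (l l' : ℕ) (χ χ' : F[X] → ℂ),
  Hay Q l χ → Hay Q' l' χ' →
  Hay (Q * Q') (max l l') (fun f => χ f * conj (χ' f)) ∧
  Hay Q l (fun f => conj (χ f)) ∧ Hay Q l (fun f => χ f ^ 2) ∧
  (Q = Q' → l = l' → Hay Q l (fun f => χ f * conj (χ' f)))

/-- **VAN** (orthogonality).  Proof.  `f = d g`: the sum is `ψ d * ∑_{g ∈ Mon m} ψ g`, `m = k - deg d`,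
`m ≥ deg Q + l`.  Every `g ∈ Mon m` is uniquely `Q u + v` with `deg v < deg Q`, `u ∈ Mon (m - deg Q)`
(division by the monic `Q`).  As `deg v < deg Q ≤ m - l`, `v` does not touch the coefficients of `g` of
degree `m, ..., m - l`, so `g.reverse ≡ Q.reverse * u.reverse mod X ^ (l + 1)`; hence `ψ g` depends only on
`v` and on `u.reverse mod X^(l+1)`, and the number of `u` with given class is `q ^ (m - deg Q - l)`: the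
classes `(g mod Q, g.reverse mod X^(l+1))` of `g ∈ Mon m` run `q ^ (m - deg Q - l)` times through all pairs
(residue mod `Q`, residue mod `X^(l+1)` with constant term `1`).  So `∑_{Mon m} ψ = q^(m - deg Q - l) * S`,
`S` the sum over all pairs.  Multiplication by the class of `h` permutes the pairs with `v` prime to `Q`
(`h` is prime to `Q` since `ψ h ≠ 0`; for the others `ψ = 0`), and multiplies `ψ` by `ψ h`; so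
`S = ψ h * S` and `S = 0`. -/
def S_VAN : Prop := ∀ (F : Type) [Field F] [Fintype F] (Q : F[X]) (l : ℕ) (ψ : F[X] → ℂ), Hay Q l ψ →
  (∃ h : F[X], h.Monic ∧ ψ h ≠ 0 ∧ ψ h ≠ 1) → ∀ (d : F[X]) (k : ℕ), d.Monic →
    d.natDegree + Q.natDegree + l ≤ k →
    (open Classical in ∑ f ∈ (Mon F k).filter (fun f => d ∣ f), ψ f) = 0

/-- **CMON** (counting; easy).  `|Mon n| = q^n`, and `|{f ∈ Mon k : d ∣ f}| = q^(k - deg d)`, `f = d g`. -/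
def S_CMON : Prop := ∀ (F : Type) [Field F] [Fintype F], (∀ n : ℕ, (Mon F n).card = Fintype.card F ^ n) ∧
  ∀ (d : F[X]) (k : ℕ), d.Monic → d.natDegree ≤ k →
    (open Classical in ((Mon F k).filter (fun f => d ∣ f)).card) = Fintype.card F ^ (k - d.natDegree)

/-- **CPR** (exact prime number theorem): `∑_{deg P ∣ k} deg P = q^k` for `k ≥ 1`.  Proof: every element
`x` of the extension of degree `k` has a minimal polynomial in `PD F k`, and every such polynomial `P` has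
exactly `deg P` roots there (compare `H341R2.FieldSum`, theorem `T_eq_sum`, where the same partition is
used); or formally from `∑_{f ∈ Mon n} n = ∑_j (∑_{P ∈ PD j} deg P) |Mon (n-j)|`
(`H341R2.Sharp.count_dvd`) and `|Mon n| = q^n` by induction. -/
def S_CPR : Prop := ∀ (F : Type) [Field F] [Fintype F] (k : ℕ), 1 ≤ k →
  ∑ P ∈ PD F k, P.natDegree = Fintype.card F ^ k

/-- **BH** (Brun-Hooley sieve).  Uses BHA, BHB, MER (assembly: `α = F[X]`, `S` = the primes of degree `≤ y` dividing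
`f`, resp. all primes of degree `≤ y`; `nu2 d = nuU (primes of d)` for `d` monic squarefree with all prime
factors of degree `≤ y`, else `0`; the same for `nu1`, `nuL`; `D ↦ ∏ D` is a bijection from the sets of
primes to the squarefree `d`).  Complete proof.  Blocks: the prime `P` (monic irreducible), `deg P ≤ y`, is in block
`j ≥ 0` iff `y < 2^(j+1) deg P` and `2^j deg P ≤ y`; `b_j = b + j`.  For `f` monic let `ω_j` be the number of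
primes of block `j` dividing `f` and
`x_j = 1` if `ω_j = 0`, else `0`; `u_j = ∑_{i ≤ 2 b_j} (-1)^i C(ω_j, i)` (`= C(ω_j - 1, 2 b_j)` if
`ω_j ≥ 1`, `= 1` if `ω_j = 0`); so `0 ≤ x_j ≤ u_j` and `u_j - x_j ≤ C(ω_j, 2 b_j + 1)`.  Upper weight:
`λ⁺(f) = ∏_j u_j`.  Lower weight: `λ⁻(f) = ∏_j u_j - ∑_j C(ω_j, 2 b_j + 1) ∏_{i ≠ j} u_i`.  As
`∏ u_j - ∏ x_j ≤ ∑_j (u_j - x_j) ∏_{i ≠ j} u_i` (telescoping, `0 ≤ x_j ≤ u_j`) we get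
`λ⁻ ≤ 1_{Rough} = ∏ x_j ≤ λ⁺`.  Since `C(ω_j, i)` is the number of the `d ∣ f` which are products of `i`
different primes of block `j`, both are sums over divisors: `nu2 d = μ(d)` if `d` is squarefree with all
prime factors of degree `≤ y` and at most `2 b_j` prime factors in block `j` for all `j`, else `0`;
`nu1 d = nu2 d` + (for every `j` for which `d` has exactly `2 b_j + 1` prime factors in block `j` and at most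
`2 b_i` in block `i ≠ j`) `μ(d)`.  Degrees: `≤ ∑_j 2 (b + j) y / 2^j + y = (4 b + 5) y ≤ 10 b y`.
Mean values: `E_i^j = ∑ 1/|d|` over the products `d` of `i` different primes of block `j` (elementary
symmetric function of the `1/|P|`, `|P| = q^(deg P)`), `U_j = ∑_{i ≤ 2 b_j} (-1)^i E_i^j`,
`V_j = ∏_{P in block j} (1 - 1/|P|)`: then `0 ≤ U_j - V_j ≤ E_{2 b_j + 1}^j` (Bonferroni),
`E_i^j ≤ S_j^i / i!`, `S_j = ∑ 1/|P| ≤ ∑_{m in block j} 1/m ≤ 3` (the number of primes of degree `m` is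
`≤ q^m / m`, from CPR), `V_j ≥ exp (-2 S_j) ≥ e^(-6)` (`1 - x ≥ e^(-2x)`, `0 ≤ x ≤ 1/2`).  So
`U_j ≤ V_j (1 + e^6 3^(2 b_j + 1) / (2 b_j + 1)!)` and `∏ U_j ≤ C₁ V`, `V = ∏_j V_j ≤ 1/(y+1)` since
`∏_{deg P ≤ y} (1 - 1/|P|)^(-1) ≥ ∑_{deg f ≤ y} 1/|f| = y + 1`.  The mean of `nu2` is `∏ U_j ≤ C₁ V ≤ C/y`;
the difference of the means is `∑_j E_{2 b_j + 1}^j ∏_{i ≠ j} U_i ≤ C₁ V e^6 ∑_j 3^(2b+2j+1)/(2b+2j+1)! ≤
(C/y) e^(-b)`. -/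
def S_BH : Prop := ∃ C : ℝ, 0 < C ∧ ∀ (F : Type) [Field F] [Fintype F] (y b : ℕ), 1 ≤ y → 1 ≤ b →
  ∃ nu1 nu2 : F[X] → ℝ,
    (open Classical in ∀ f : F[X], f.Monic →
      ∑ d ∈ (UB F (10 * b * y)).filter (fun d => d ∣ f), nu1 d ≤ (if Rough y f then 1 else 0) ∧
      (if Rough y f then 1 else 0) ≤ ∑ d ∈ (UB F (10 * b * y)).filter (fun d => d ∣ f), nu2 d) ∧
    ∑ d ∈ UB F (10 * b * y), nu2 d / qq F ^ d.natDegree -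
      ∑ d ∈ UB F (10 * b * y), nu1 d / qq F ^ d.natDegree ≤ C / y * Real.exp (-b) ∧
    ∑ d ∈ UB F (10 * b * y), nu2 d / qq F ^ d.natDegree ≤ C / y

/-- **UP** (upper bounds for quadratic forms).  Uses HC, VAN, CMON, BH.  Proof.  `Φ(f) = phi χ c f`.
For `λ(f) = ∑_{d ∣ f, d ∈ UB D} ν(d)` and `k ≥ D + 2 R`:
(*) `∑_{f ∈ Mon k} λ(f) |Φ(f)|² = ∑_i |c_i|² ∑_{f ∈ Mon k} λ(f) |χ_i(f)|²`, since for `i ≠ j`
`∑_{f ∈ Mon k, d ∣ f} χ_i(f) conj χ_j(f) = 0` by HC and VAN (level `(Q_i Q_j, max l_i l_j)`, sum `≤ 2 R`;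
nonprincipal by `Fam.sep`: `χ_i(h) conj χ_j(h) ≠ 0, 1` as both have norm one and differ).
First claim: (*) with `λ = 1`, `D = 0` (`ν(1) = 1`), and `|Mon k| = q^k`.  Second claim: BH with `b = 1`,
`λ⁺ ≥ 0` (it is `≥ 1_{Rough}`), `|χ_i| ≤ 1`: `∑_{Ro} |Φ|² ≤ ∑_{Mon k} λ⁺ |Φ|² ≤ nsq c ∑_{f ∈ Mon k} λ⁺(f) =
nsq c q^k ∑_d nu2(d)/|d| ≤ (C/y) q^k nsq c`. -/
def S_UP : Prop := ∃ C : ℝ, 0 < C ∧ ∀ (F : Type) [Field F] [Fintype F] (R : ℕ) (ι : Type)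
  [Fintype ι] (χ : ι → F[X] → ℂ), Fam R χ → ∀ (k : ℕ) (c : ι → ℂ),
    (2 * R ≤ k → ∑ f ∈ Mon F k, ‖phi χ c f‖ ^ 2 ≤ qq F ^ k * nsq c) ∧
    ∀ y : ℕ, 1 ≤ y → 10 * y + 2 * R ≤ k → ∑ f ∈ Ro F y k, ‖phi χ c f‖ ^ 2 ≤ C / y * qq F ^ k * nsq c

/-- **RB** (quadratic forms on rough polynomials).  Uses HC, VAN, CMON, BH, UP.  Proof.
`Φ(f) = phi χ c f`; (*) is the formula in the proof of UP.  Also `∑_{f ∈ Mon k} λ(f) = q^k ∑_d ν(d)/|d|` for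
`k ≥ D` (CMON).
(b) Second claim: if `k ≤ y` then `Ro y k` is empty (`k ≥ 1`: `f` has a prime factor of degree `≤ k ≤ y`).
Let `k > y ≥ 8R`.  If `k < 30`: `∑_{Mon k} |Φ|² ≤ q^k nsq c` (UP, `k ≥ 2R`) and `1 ≤ 30/y`.  If `k ≥ 30` take
`y' = min (k/30) y`: rough for `y` implies rough for `y' ≤ y`, `10 y' + 2R ≤ k/3 + k/4 ≤ k`, and `y' ≥ y/60`;
use UP.  The bound for `|Ro|` is the same for the family with one member, the principal character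
(`f ↦ 1` on the monic `f`, `0` elsewhere, level `(1, 0)`).
(c) First claim, `k ≥ 30 y`: `b = (k - 2R)/(10 y) ≥ 1` (floor), level `10 b y ≤ k - 2R`.  With `X⁺, X⁻` the
means of `nu2`, `nu1`: `∑_{Ro} |Φ|² ≤ ∑ λ⁺|Φ|² ≤ q^k X⁺ nsq c` and `q^k X⁻ = ∑_{Mon k} λ⁻ ≤ |Ro|`, so
`≤ (|Ro| + q^k (X⁺ - X⁻)) nsq c`.  Lower bound: `∑_{Ro}|Φ|² ≥ ∑ λ⁻ |Φ|² = ∑ |c_i|² ∑_f λ⁻(f) |χ_i(f)|²`
and `∑_f λ⁻(f)|χ_i(f)|² = ∑_{f prime to Q_i} λ⁻(f) ≥ ∑_f λ⁻(f)`, because an `f` not prime to `Q_i` has a prime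
factor of degree `≤ R ≤ y`, is not rough, so `λ⁻(f) ≤ 0`; and `∑_f λ⁻ = q^k X⁻ ≥ q^k X⁺ - q^k (X⁺ - X⁻) ≥
|Ro| - q^k (X⁺ - X⁻)`.  Finally `X⁺ - X⁻ ≤ (C/y) e^(-b)`, `b ≥ k/(20 y)`.
(d) First claim, `k < 30 y`: both terms are `≤ (C/y) q^k nsq c` by (b), and `1 ≤ e^2 e^(-k/(20y))`.
So `c₀ = 1/20`. -/
def S_RB : Prop := ∃ C c₀ : ℝ, 0 < C ∧ 0 < c₀ ∧ ∀ (F : Type) [Field F] [Fintype F] (R y : ℕ) (ι : Type)
  [Fintype ι] (χ : ι → F[X] → ℂ), Fam R χ → 1 ≤ y → 8 * R ≤ y → ∀ k : ℕ, 1 ≤ k →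
  ((Ro F y k).card : ℝ) ≤ C / y * qq F ^ k ∧ ∀ c : ι → ℂ,
    |∑ f ∈ Ro F y k, ‖phi χ c f‖ ^ 2 - (Ro F y k).card * nsq c| ≤
      C / y * Real.exp (-(c₀ * k / y)) * qq F ^ k * nsq c ∧
    ∑ f ∈ Ro F y k, ‖phi χ c f‖ ^ 2 ≤ C / y * qq F ^ k * nsq c

/-- **AB** (prime powers).  Uses HC, VAN, CPR, UP.  Proof.  Terms with `deg P = k > y` (`≥ 8R`): a prime of
degree `k` is `Rough y'` for `y' < k`.  If `k < 30`: `k ∑_P |Φ(P)|² ≤ 30 ∑_{Mon k} |Φ|² ≤ 30 q^k nsq c` (UP,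
`k ≥ 2R`).  If `k ≥ 30`: `y' = k/30` (floor), `10 y' + 2R ≤ k/3 + k/4 ≤ k`, `k ≤ 60 y'`, so by UP
`k ∑_P |Φ(P)|² ≤ k (C/y') q^k nsq c ≤ 60 C q^k nsq c`.
Terms with `deg P = m < k`, `m ∣ k`, `m > y` (so `k ≥ 2m ≥ 2 (8R + 1)`): `|Φ(f)|² ≤ |ι| nsq c`
(Cauchy-Schwarz, `|χ| ≤ 1`); `|ι| ≤ q^(2R)`: the restrictions of the `χ_i` to `Mon (2R)` are pairwise
orthogonal (VAN) and not zero (`Q_i X^(2R - deg Q_i) + 1` if `R ≥ 1`, and `1` if `R = 0`, is monic of degree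
`2R` and prime to `Q_i`), hence linearly independent in a space of dimension `q^(2R)`.
`∑_{P, deg P = m} deg P ≤ q^m ≤ q^(k/2)` (CPR), at most `k` values of `m`: together
`≤ k q^(k/2 + 2R) nsq c ≤ k q^(5k/8) nsq c` (`2R ≤ k/8`) which is the second claim, and `≤ C q^k nsq c`. -/
def S_AB : Prop := ∃ C : ℝ, 0 < C ∧ ∀ (F : Type) [Field F] [Fintype F] (R y : ℕ) (ι : Type)
  [Fintype ι] (χ : ι → F[X] → ℂ), Fam R χ → 1 ≤ y → 8 * R ≤ y → ∀ k : ℕ, 1 ≤ k → ∀ c : ι → ℂ,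
    ∑ P ∈ (PD F k).filter (fun P => y < P.natDegree),
      (P.natDegree : ℝ) * ‖phi χ c (P ^ (k / P.natDegree))‖ ^ 2 ≤ C * qq F ^ k * nsq c ∧
    ∑ P ∈ (PD F k).filter (fun P => y < P.natDegree ∧ P.natDegree < k),
      (P.natDegree : ℝ) * ‖phi χ c (P ^ (k / P.natDegree))‖ ^ 2 ≤
        k ^ 2 * qq F ^ ((5 : ℝ) * k / 8) * nsq c

/-- **IDN** (identities).  `1` is rough; a product of monic polynomials is rough iff the factors are.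
`n f`-sum: for rough `f ∈ Mon n`, `n = ∑_{P, j ≥ 1, P^j ∣ f} deg P` (`H341R2.Sharp.count_dvd`), only primes of
degree `> y` occur; `f = P^j g`, `g ∈ Ro (n - j deg P)`: `∑_{f ∈ Ro n} n ψ(f) = ∑_{P, j} deg P ψ(P)^j
∑_{g ∈ Ro (n - j deg P)} ψ(g)`.  The pairs `(P, j)` with `j deg P = i` are the `P ∈ PD i`, `j = i / deg P`.
Second: `∑_{f g ∈ Ro n} μ(f) ψ(fg) = ∑_{h ∈ Ro n} ψ(h) ∑_{f ∣ h, f monic} μ(f) = 0` for `n ≥ 1`. -/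
def S_IDN : Prop := ∀ (F : Type) [Field F] [Fintype F] (y : ℕ) (ψ : F[X] → ℂ), CM ψ →
  rr y ψ 0 = 1 ∧ mm y ψ 0 = 1 ∧ ∀ n : ℕ, 1 ≤ n →
    (n : ℂ) * rr y ψ n = ∑ j ∈ Icc 1 n, AA y ψ j * rr y ψ (n - j) ∧
    ∑ j ∈ range (n + 1), mm y ψ j * rr y ψ (n - j) = 0

/-- **I3** (second identity, formal).  Power series `R, M, A` (`A_0 = 0`), `D = X d/dX`: `D R = A R`, `M R = 1`,
so `D (D R) = (D A + A^2) R`, `M D²R = D A + A²`; compare coefficients of `X^n`. -/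
def S_I3 : Prop := ∀ r m a : ℕ → ℂ, r 0 = 1 → m 0 = 1 →
  (∀ n : ℕ, 1 ≤ n → (n : ℂ) * r n = ∑ j ∈ Icc 1 n, a j * r (n - j)) →
  (∀ n : ℕ, 1 ≤ n → ∑ j ∈ range (n + 1), m j * r (n - j) = 0) →
  ∀ n : ℕ, 1 ≤ n → (n : ℂ) * a n =
    ∑ j ∈ Icc 1 n, (j : ℂ) ^ 2 * r j * m (n - j) - ∑ j ∈ Icc 1 (n - 1), a j * a (n - j)

/-- **PWA** (analytic lemma).  Proof.  For `|z| < 1` let `L(z) = ∑ r_k z^k`, `A(z) = ∑_{k≥1} a_k z^k`; the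
hypothesis says `z L' = A L`.  Let `M = 1/L = ∑ m_k z^k` (analytic in `|z| < 1`; `m` satisfies the second
hypothesis of I3).  Parseval on `|z| = ρ < 1`: `∑ |a_k|² ρ^(2k) = mean |z L'/L|² ≤ c₁^(-2) ∑ k² |r_k|² ≤
K y`; `∑_{k≥1} |m_k|² ρ^(2k) = mean |(1 - L)/L|² ≤ c₁^(-2) ∑_{k≥1} |r_k|² ≤ K/y`; let `ρ → 1`.
(Here `∑_{k ≥ 1} k^j e^(-2 c k/y) ≤ K_j y^(j+1)`.)  By I3
`n a_n = n² r_n + ∑_{0<j<n} j² r_j m_(n-j) - ∑_{0<j<n} a_j a_(n-j)`: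
`|n² r_n| ≤ C y (n/y)² e^(-cn/y) ≤ K y`, the second sum is `≤ (∑ j⁴|r_j|²)^(1/2) (∑ |m|²)^(1/2) ≤
(K y³)^(1/2) (K/y)^(1/2)`, the third `≤ ∑ |a_j|² ≤ K y`. -/
def S_PWA : Prop := ∀ C c c₁ : ℝ, 0 < C → 0 < c → 0 < c₁ → ∃ K : ℝ, 0 < K ∧ ∀ (y : ℕ) (r a : ℕ → ℂ), 1 ≤ y →
  r 0 = 1 → (∀ k : ℕ, 1 ≤ k → ‖r k‖ ≤ C / y * Real.exp (-(c * k / y))) → (∀ k : ℕ, ‖a k‖ ≤ C) →
  (∀ n : ℕ, 1 ≤ n → (n : ℂ) * r n = ∑ j ∈ Icc 1 n, a j * r (n - j)) →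
  (∀ z : ℂ, ‖z‖ < 1 → c₁ ≤ ‖∑' k : ℕ, r k * z ^ k‖) →
  ∀ n : ℕ, 1 ≤ n → ‖a n‖ ≤ K * y / n

/-- **LOW** (3-4-1).  `r1` real nonnegative (principal character), `r2` (`ψ`), `r3` (`ψ²`).  Proof.  For
`|z| < 1`, `G_i(z) = ∑_{k≥1} a_i(k) z^k / k`, `L_i(z) = ∑ r_i(k) z^k`; then `exp G_i = L_i` (both satisfy
`z L' = A L`, value `1` at `0`).  For `z = t e^{iθ}`:
`3 G_1(t) + 4 Re G_2(t e^{iθ}) + Re G_3(t e^{2iθ}) ≥ 0`, so `L_1(t)³ |L_2(z)|⁴ |L_3(t e^{2iθ})| ≥ 1`.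
`L_1(t) ≤ 1 + (C/y)/(1-t)`, `|L_3| ≤ 1 + ∑_k (C/y) e^(-ck/y) ≤ K`.  So
`|L_2(z)| ≥ K^(-1/4) (1 + C/(y(1-t)))^(-3/4)`.  Also `|L_2(z) - L_2(z')| ≤ |z - z'| ∑ k |r_2(k)| ≤ K y |z-z'|`.
If `|z| ≤ 1 - κ/y` the first bound suffices; if `1 - κ/y < |z| < 1` compare with `z' = (1 - κ/y) z/|z|`:
`|L_2(z)| ≥ K^(-1/4) (1 + C/κ)^(-3/4) - K κ > 0` for a small absolute `κ` (depending on `C`, `c` only;
`κ ≤ 1/2` so that `1 - κ/y > 0`). -/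
def S_LOW : Prop := ∀ C c : ℝ, 0 < C → 0 < c → ∃ c₁ : ℝ, 0 < c₁ ∧ ∀ (y : ℕ) (r1 a1 : ℕ → ℝ)
  (r2 r3 a2 a3 : ℕ → ℂ), 1 ≤ y → r1 0 = 1 → r2 0 = 1 → r3 0 = 1 →
  (∀ k : ℕ, 1 ≤ k → 0 ≤ r1 k ∧ r1 k ≤ C / y) →
  (∀ k : ℕ, 1 ≤ k → ‖r2 k‖ ≤ C / y * Real.exp (-(c * k / y)) ∧ ‖r3 k‖ ≤ C / y * Real.exp (-(c * k / y))) →
  (∀ k : ℕ, |a1 k| ≤ C ∧ ‖a2 k‖ ≤ C ∧ ‖a3 k‖ ≤ C) →
  (∀ n : ℕ, 1 ≤ n → (n : ℝ) * r1 n = ∑ j ∈ Icc 1 n, a1 j * r1 (n - j)) →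
  (∀ n : ℕ, 1 ≤ n → (n : ℂ) * r2 n = ∑ j ∈ Icc 1 n, a2 j * r2 (n - j)) →
  (∀ n : ℕ, 1 ≤ n → (n : ℂ) * r3 n = ∑ j ∈ Icc 1 n, a3 j * r3 (n - j)) →
  (∀ (k : ℕ) (w : ℂ), ‖w‖ = 1 → 0 ≤ 3 * a1 k + 4 * (a2 k * w).re + (a3 k * w ^ 2).re) →
  ∀ z : ℂ, ‖z‖ < 1 → c₁ ≤ ‖∑' k : ℕ, r2 k * z ^ k‖

/-- **WEIL** (real characters, odd characteristic).  Uses LGA, LGB and the library `H341R2` (`Sharp.T_bound`,
`Sharp.lam`; `lam` is multiplicative in its first argument by `resultant_mul_right`).  Proof.  `ψ` takes the values `0, ±1`.  `ψ f` depends only on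
`f` mod `Q`: let `f ≡ g` mod `Q`, both monic and prime to `Q`.  As `q` is odd and `ψ f = ±1`,
`ψ f = ψ (f ^ (q ^ l))`; `(f ^ (q^l)).reverse = f.reverse ^ (q^l) ≡ 1` mod `X^(l+1)` (`f.reverse` has constant
term one, `(1 + X u) ^ (q^l) = 1 + X^(q^l) u^(q^l)`, `q^l ≥ l + 1`), the same for `g`, and
`f^(q^l) ≡ g^(q^l)` mod `Q`; hence `ψ f = ψ g` by `Hay.per`.  So `ψ` is a quadratic character
of `(F[X]/Q)ˣ` (on the classes, all of which contain monic polynomials), trivial on the classes which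
are squares; by the Chinese remainder theorem and since the unit group of `F[X]/P^e` modulo squares has order
two (`1 + P` has odd order), `ψ(g) = ∏_{P ∈ S} (g/P)` for `g` prime to `Q`, with `S` a set of prime divisors
of `Q`, not empty (nonprincipal); `(g/P) = quadraticChar_{F[X]/P}(g) = quadraticChar_F(N(g mod P)) =
quadraticChar_F (resultant P g) = ± quadraticChar_F (resultant g P)` with sign `s^(deg g)`, `s = ±1` (depending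
on `P`).  So `ψ(g) = s^(deg g) lam D g`, `D = ∏_{P ∈ S} P`, for `g` prime to `Q`.  With
`T D k = ∑_{P ∈ PD k} deg P (lam D P)^(k/deg P)`: `|T D k| ≤ 5 deg D q^(k/2)` (`T_bound`; `D` is not a constant
times a square), and the primes dividing `Q` contribute at most `deg Q`.  Total `≤ 6 deg Q q^(k/2)`. -/
def S_WEIL : Prop := ∀ (F : Type) [Field F] [Fintype F], ringChar F ≠ 2 → ∀ (Q : F[X]) (l : ℕ)
  (ψ : F[X] → ℂ), Hay Q l ψ → (∀ f : F[X], f.Monic → ψ f = 0 ∨ ψ f ^ 2 = 1) →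
  (∃ h : F[X], h.Monic ∧ ψ h ≠ 0 ∧ ψ h ≠ 1) → ∀ k : ℕ, 1 ≤ k →
  ‖∑ P ∈ PD F k, (P.natDegree : ℂ) * ψ P ^ (k / P.natDegree)‖ ≤ 6 * Q.natDegree * qq F ^ ((k : ℝ) / 2)

/-- **PW** (pointwise bound).  Uses RB, IDN, PWA, LOW, WEIL, HC, CPR.  Proof.  `ψ = χ_i conj χ_j`, level
`(Q, l) = (Q_i Q_j, max)`, `deg Q ≤ 2R`.  `|AA y ψ k| ≤ 1` by CPR; `AA y ψ k = 0` for `k ≤ y`.
Case A: some monic `h` has `ψ h ≠ 0`, `ψ(h)² ≠ 1`.  RB (first claim) for the family `χ_i, χ_j`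
(index type `Bool`) gives `|rr y ψ k| ≤ (C/y) e^(-c k/y)` (take `c = (1, u)`, `|u| = 1`; the diagonal terms
are `|Ro|` since rough polynomials are prime to `Q`, as `y ≥ R`); the same for `ψ²` with the family
`χ_i², χ_j²` (levels as before, separated by `h`).  Apply LOW with `r1 = |Ro|/q^k`, `a1 k = q^(-k)
∑_{P ∈ PD k, deg P > y} deg P` (IDN for the function `1`, made zero off the monic ones or not), `a2 = AA y ψ`,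
`a3 = AA y ψ²`: positivity because `3 + 4 Re x + Re x² = 2 (1 + Re x)² ≥ 0` for `x = ψ(P)^j w`, `|x| = 1` (primes
of degree `> y ≥ R` are prime to `Q`).  Then PWA.
Case B: `ψ² = 1` where `ψ ≠ 0`: WEIL.  For `k ≥ 2y`: `|∑_{PD k}| ≤ 12 R q^(k/2)`, the primes of degree `≤ y`
contribute at most `∑_{m ≤ y} q^m ≤ 2 q^y ≤ 2 q^(k/2)`, so `|AA| ≤ (12 R + 2) q^(-k/2) ≤ 4 y q^(-k/2) ≤ 4 y/k`
(`q ≥ 3`, `k ≤ 3^(k/2)`); for `k < 2y`: `|AA| ≤ 1 ≤ 2y/k`. -/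
def S_PW : Prop := ∃ K : ℝ, 0 < K ∧ ∀ (F : Type) [Field F] [Fintype F], ringChar F ≠ 2 → ∀ (R y : ℕ)
  (ι : Type) [Fintype ι] (χ : ι → F[X] → ℂ), Fam R χ → 1 ≤ y → 8 * R ≤ y → ∀ i j : ι, i ≠ j →
  ∀ k : ℕ, 1 ≤ k → ‖AA y (fun f => χ i f * conj (χ j f)) k‖ ≤ K * y / k

/-- **OPM** (matrix lemma).  Norms: `|u| = sqrt (nsq u)`; `|M| = sup |offF M u v| / (|u||v|)`.  Proof.
`X_n = (1/n) (n² r_n + ∑_{0<a<n} a² r_a m_(n-a))`, `B_n = -(1/n) ∑_{0<a<n} A_a A_(n-a)` (entrywise); so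
`A_n = X_n + B_n` off the diagonal.  (1) `|X_n| ≤ (1/n) [n² (C/y) e^(-cn/y) + ∑_a a² (C/y) e^(-ca/y) (C/y)] ≤
K y/n`; hence entries and rows/columns (`ℓ²` norm) of `X_n` are `≤ K y/n` (test vectors: `u = e_i`,
`v` = conjugate of the row).  (2) Let `α_n` be the maximal `ℓ²` norm of the off-diagonal rows and columns of
`A_n`; `α_n ≤ C` by the hypothesis on `A`.  For a row `i`: `∑_{j≠i} |B_n(i,j)| ≤ (1/n) ∑_a α_a α_(n-a) ≤ C²`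
(Cauchy-Schwarz), and `|B_n(i,j)| ≤ |A_n| + |X_n| ≤ K y/n` (pointwise hypothesis), so
`∑_j |B_n(i,j)|² ≤ K y/n`, `α_n ≤ K y/n + (K y/n)^(1/2)`; with `α_n ≤ C` this gives
`α_n ≤ K (y/n)^(1/2)`.  The same for columns.  (3) So the row and column sums of `|B_n|` are
`≤ (1/n) ∑_{0<a<n} K² y/(a(n-a))^(1/2) ≤ 4 K² y/n` (`∑_{0<a<n} 1/sqrt(a(n-a)) ≤ 4`), and by Schur's test
`|B_n| ≤ 4K² y/n`.  Together `|A_n| ≤ K' y/n`. -/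
def S_OPM : Prop := ∀ C c : ℝ, 0 < C → 0 < c → ∃ K : ℝ, 0 < K ∧ ∀ (ι : Type) [Fintype ι] (y : ℕ)
  (r m A : ℕ → ι → ι → ℂ), 1 ≤ y →
  (∀ n : ℕ, 1 ≤ n → ∀ i j, i ≠ j → (n : ℂ) * A n i j = ∑ a ∈ Icc 1 n, (a : ℂ) ^ 2 * r a i j * m (n - a) i j -
    ∑ a ∈ Icc 1 (n - 1), A a i j * A (n - a) i j) →
  (∀ i j, m 0 i j = 1) →
  (∀ k : ℕ, 1 ≤ k → ∀ u v : ι → ℂ, ‖offF (r k) u v‖ ≤
    C / y * Real.exp (-(c * k / y)) * Real.sqrt (nsq u) * Real.sqrt (nsq v)) →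
  (∀ k l : ℕ, 1 ≤ k → 1 ≤ l → ∀ u v : ι → ℂ, ‖offF (fun i j => r k i j * m l i j) u v‖ ≤
    C / y * Real.exp (-(c * k / y)) * (C / y) * Real.sqrt (nsq u) * Real.sqrt (nsq v)) →
  (∀ k : ℕ, 1 ≤ k → ∀ u v : ι → ℂ, ‖offF (A k) u v‖ ≤ C * Real.sqrt (nsq u) * Real.sqrt (nsq v)) →
  (∀ k : ℕ, 1 ≤ k → ∀ i j, i ≠ j → ‖A k i j‖ ≤ C * y / k) →
  ∀ n : ℕ, 1 ≤ n → ∀ u v : ι → ℂ, ‖offF (A n) u v‖ ≤ K * y / n * Real.sqrt (nsq u) * Real.sqrt (nsq v)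

/-- **NO** (operator form of Gallagher's theorem, frame bounds for characters on primes).  Uses RB, AB, IDN,
I3, PW, OPM, POL, CPR.  Proof.  `y = 8 (R + 1)`.  Matrices `r_k(i,j) = rr y (χ_i conj χ_j) k`, `m_k`, `A_k`
likewise.  `offF (r_k) c (conj c) = q^(-k) (∑_{Ro} |Φ|² - |Ro| nsq c)` with `Φ = phi χ c` (the diagonal entries
are `|Ro|/q^k`: rough polynomials are prime to all `Q_i`), so RB bounds the quadratic form, and by polarisation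
(`B(u,v) = (1/4) ∑_k i^k q(u + i^k v)`, scaling `|u| = |v|`) the bilinear form with a factor `2`.
`offF (r_a m_b) u v = q^(-b) ∑_{f ∈ Ro b} μ(f) offF r_a (u_i χ_i(f)) (v_j conj χ_j(f))`, absolute value
`≤ q^(-b) |Ro b| |r_a| |u||v|` (`|χ_i(f)| = 1`), `|Ro b| ≤ (C/y) q^b`.  The form of `A_k` (with diagonal) is
`q^(-k) ∑ deg P |Φ(P^j)|²`, bounded by AB; the diagonal entries are `≤ 1`.  PW is the pointwise bound, I3 with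
IDN the identity.  OPM gives `|offF (A_n)| ≤ K y/n`.  Then
`n ∑_{deg P = n} |Φ(P)|² = q^n (a_n nsq c + offF A_n c conj c) - ∑_{deg P < n} deg P |Φ(P^j)|²`,
`1 - 2 q^(y-n) ≤ a_n ≤ 1` (`a_n = q^(-n) ∑_{P ∈ PD n, deg P > y} deg P`, CPR), the last sum
`≤ n² q^(5n/8) nsq c` (AB).  For `n ≥ d₁ (R+1)` the errors are at most `1/2`. -/
def S_NO : Prop := ∃ d₁ : ℕ, 1 ≤ d₁ ∧ ∀ (F : Type) [Field F] [Fintype F], ringChar F ≠ 2 → ∀ (R n : ℕ)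
  (ι : Type) [Fintype ι] (χ : ι → F[X] → ℂ), Fam R χ → d₁ * (R + 1) ≤ n → ∀ c : ι → ℂ,
    1 / 2 * (qq F ^ n / n) * nsq c ≤ ∑ P ∈ PI F n, ‖phi χ c P‖ ^ 2 ∧
    ∑ P ∈ PI F n, ‖phi χ c P‖ ^ 2 ≤ 2 * (qq F ^ n / n) * nsq c

end Pool.Agent.Q284.PS
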