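import Pool.Agent.Q284.PS.Defs2
import Pool.Agent.Q284.PS.Stm

/-!
# Project PS: statements, part 2 (the construction of the Euler products)

`B = BB = 1/25600`, `q = qq F ≥ 3`, `s = (-1)^d`.
-/

set_option autoImplicit false

open Finset Polynomial ComplexConjugate
open Pool.Agent.H341R2.Sharp (Mon)

namespace Pool.Agent.Q284.PS

/-- **UNI** (uniqueness of the primitive character).  Uses CRT, ETA (Stm0).  Proof.  Let `G = gcd(Q, Q')` (monic), `l₀ = min l l'`,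
say `l ≤ l'`.  Claim: if `f, g` are monic, prime to `Q Q'`, `f ≡ g` mod `G`, `f.reverse ≡ g.reverse` mod
`X^(l₀+1)`, then `χ f = χ g`.  Choose a monic `h` (of large degree) with `h ≡ f` mod `Q`, `h ≡ g` mod `Q'`
(Chinese remainder theorem, possible as `f ≡ g` mod `G`) and `h.reverse ≡ g.reverse` mod `X^(l'+1)` (the top
coefficients are free: `h = v + lcm * u` with `deg v < deg lcm`, choose `u`); `h` is prime to `Q Q'`.  Then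
`χ h = χ f` (the reverses agree mod `X^(l+1)`, `l ≤ l'`, `l₀ = l`), `χ' h = χ' g`, and `χ h = χ' h`,
`χ' g = χ g` by hypothesis.  So there is a Hayes character `η` of level `(G, l₀)` with `η f = χ f` for `f` prime
to `Q` : for `f` prime to `G` put `η f = χ f₁` for any monic `f₁` prime to `Q Q'` in the class of `f`
(exists); it is well defined, multiplicative, and for `f` prime to `Q` (not necessarily to `Q'`) choose `f₁ ≡ f`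
mod `Q`, `f₁.reverse ≡ f.reverse` mod `X^(l+1)`, `f₁` prime to `Q'`: `η f = χ f₁ = χ f`.  The same for `χ'` (first
`f₁` prime to `Q Q'`, where `χ = χ'`).  By primitivity of both `Q = G = Q'`, `l = l₀ = l'`; then `χ = χ'`
at all monic `f` prime to `Q`, both vanish elsewhere.  (`χ h ≠ 0` iff `h` monic and prime to `Q`.) -/
def S_UNI : Prop := ∀ (F : Type) [Field F] [Fintype F] (Q Q' : F[X]) (l l' : ℕ) (χ χ' : F[X] → ℂ),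
  Prim Q l χ → Prim Q' l' χ' → (∀ h : F[X], h.Monic → χ h ≠ 0 → χ' h ≠ 0 → χ h = χ' h) →
  Q = Q' ∧ l = l' ∧ χ = χ'

/-- **CNT** (number of primitive characters).  Uses HC, VAN, CMON.  Proof.  For fixed `(Q, l)` the set of Hayes
characters of level `(Q, l)` is finite with at most `q^(deg Q + l)` elements: for a finite set of them, the
restrictions to `Mon (deg Q + l)` are pairwise orthogonal (HC last point and VAN with `d = 1`: if `χ ≠ χ'`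
some monic `h` prime to `Q` has `χ h ≠ χ' h`, `ψ = χ conj χ'`, `ψ h ≠ 0, 1`) and nonzero
(if `deg Q + l = 0`, `Q = 1`: `χ 1 = 1`; in general `X^l Q + 1`, resp. for `l = 0`, `Q ≠ 1`: `Q + 1`, is monic
of degree `deg Q + l` and prime to `Q`), and the space has dimension `|Mon (deg Q + l)| = q^(deg Q + l)`.  Sum over
`Q` monic of degree `j ≤ N - L0` and `l ≤ N - j`: `∑_j q^j ∑_l q^(j+l) ≤ ∑_j q^(2j) 2 q^(N-j) =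
2 q^N ∑_{j ≤ N - L0} q^j ≤ 4 q^(2N - L0)`. -/
def S_CNT : Prop := ∀ (F : Type) [Field F] [Fintype F] (L0 N : ℕ),
  {p : F[X] × ℕ × (F[X] → ℂ) | Prim p.1 p.2.1 p.2.2 ∧ p.1.natDegree + max L0 p.2.1 ≤ N}.Finite ∧
  ({p : F[X] × ℕ × (F[X] → ℂ) | Prim p.1 p.2.1 p.2.2 ∧ p.1.natDegree + max L0 p.2.1 ≤ N}.ncard : ℝ) *
    qq F ^ L0 ≤ 4 * qq F ^ (2 * N)

/-- **LOC1**.  `h_k = a h_(k-1) + s (conj a) h_(k-d+1) - s h_(k-d)` (terms with negative index are zero),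
`h_0 = 1`; by induction `|h_k| ≤ 3^(k/d)`:
`3^(k/d) (1/4 · 3^(-1/d) + 1/4 · 3^(-(d-1)/d) + 1/3) ≤ 3^(k/d)`. -/
def S_LOC1 : Prop := ∀ (d : ℕ) (a : ℂ), 4 ≤ d → ‖a‖ ≤ 1 / 4 → hh d a 0 = 1 ∧
  (∀ k : ℕ, 1 ≤ k → k ≤ d - 2 → hh d a k = a ^ k) ∧ ‖hh d a (d - 1)‖ ≤ 2 * ‖a‖ ∧
  ∀ k : ℕ, ‖hh d a k‖ ≤ 3 ^ ((k : ℝ) / d)

/-- **LOC2** (roots on the unit circle).  Proof.  Let `φ = 0` if `d` is even, `φ = π` if `d` is odd, so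
`s = (-1)^d = e^{iφ}`, `p(X) = 1 - a X - s (conj a) X^(d-1) + s X^d`.  Then
`p(e^{iθ}) = 2 e^{i(dθ+φ)/2} g(θ)`, `g(θ) = cos((dθ+φ)/2) - Re(a e^{-i((d-2)θ+φ)/2})` (real);
at `θ_k = (2πk - φ)/d` the cosine is `(-1)^k`, so `g(θ_k)` has the sign of `(-1)^k` as `|a| ≤ 1/4`, and `g` has
a zero in `(θ_k, θ_(k+1))`, `k = 0..d-1` (intermediate value theorem); these give `d` different roots
`ρ_j` of `p` on the unit circle (the interval `[θ_0, θ_d)` has length `2π`), `deg p = d`, so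
`p = s ∏ (X - ρ_j) = s ∏ (-ρ_j) ∏ (1 - ρ_j^(-1) X) = ∏ (1 - ρ_j^(-1) X)` because `p(0) = 1`; `α_j = ρ_j^(-1)`.
Last claim: compare the coefficients of `X^d`: `(-1)^d ∏ α_j = s`. -/
def S_LOC2 : Prop := ∀ (d : ℕ) (a : ℂ), 4 ≤ d → ‖a‖ ≤ 1 / 4 → ∃ α : Fin d → ℂ, (∀ j, ‖α j‖ = 1) ∧
  (1 - C a * X - C ((-1) ^ d * conj a) * X ^ (d - 1) + C ((-1) ^ d) * X ^ d : ℂ[X]) =
    ∏ j, (1 - C (α j) * X) ∧ ∏ j, α j = 1

/-- **MUL** (multiplicativity of `aF`).  Immediate from `normalizedFactors_mul`, coprimality and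
`hh d a 0 = 1`. -/
def S_MUL : Prop := ∀ (F : Type) [Field F] (d : ℕ) (a : F[X] → ℂ), 2 ≤ d → aF d a (1 : F[X]) = 1 ∧
  (∀ f g : F[X], f.Monic → g.Monic → IsCoprime f g → aF d a (f * g) = aF d a f * aF d a g) ∧
  ∀ (P : F[X]) (k : ℕ), P.Monic → Irreducible P → aF d a (P ^ k) = hh d (a P) k

/-- **REC**.  Proof.  `n ∑_f g(f) = ∑_f g(f) ∑_{P ∣ f} v_P(f) deg P`; write `f = P^k f'`, `k = v_P(f) ≥ 1`, `f'`
prime to `P`: `g(f) = g(P^k) g(f')`; sum over `f' ∈ Mon (n - k deg P)` (dropping the condition `P ∤ f'`),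
`j = k deg P`. -/
def S_REC : Prop := ∀ (F : Type) [Field F] [Fintype F] (g : F[X] → ℝ), NMul g → ∀ n : ℕ, 1 ≤ n →
  (n : ℝ) * ∑ f ∈ Mon F n, g f ≤
    ∑ j ∈ Icc 1 n, (j : ℝ) * (∑ P ∈ PD F j, g (P ^ (j / P.natDegree))) * ∑ f ∈ Mon F (n - j), g f

/-- **T2** (`f` without large prime factor).  Proof.  Let `f ∈ Sm n`.  If some `P^k` exactly dividing `f` has
`2 k deg P > n`, then `k ≥ 2` and `f = P^k f'`, `f'` prime to `P`: first sum (`j = k deg P`, `deg P < j`).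
Otherwise add the prime power parts of `f` one after the other until the degree is `≥ n/4` for the first time:
it is then `≤ n/4 + n/2`; `f = f₁ f₂` coprime, `i = deg f₁`: second sum. -/
def S_T2 : Prop := ∀ (F : Type) [Field F] [Fintype F] (g : F[X] → ℝ), NMul g → ∀ n : ℕ, 1 ≤ n →
  ∑ f ∈ Sm F n, g f ≤
    ∑ j ∈ (Icc 1 n).filter (fun j => n < 2 * j),
      (∑ P ∈ (PD F j).filter (fun P => P.natDegree < j), g (P ^ (j / P.natDegree))) *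
        ∑ f ∈ Mon F (n - j), g f +
    ∑ i ∈ (Icc 1 n).filter (fun i => n ≤ 4 * i ∧ 4 * i ≤ 3 * n),
      (∑ f ∈ Mon F i, g f) * ∑ f ∈ Mon F (n - i), g f

/-- **DEC** (decomposition by the largest prime factor).  Proof.  If `f ∈ Mon n` has a prime factor `P` with
`2 deg P > n`, it is unique, `f = g P` with `g ∈ Mon i`, `i = n - deg P`, `2 i < n`; `P` does not divide `g`
(degree), `aF(g P) = aF(g) a(P)` (`hh d (a P) 1 = a P` for `d ≥ 3`), and conversely. -/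
def S_DEC : Prop := ∀ (F : Type) [Field F] [Fintype F] (d : ℕ) (a : F[X] → ℂ) (χ : F[X] → ℂ), 4 ≤ d →
  CM χ → ∀ n : ℕ, 1 ≤ n → ee d a χ n =
    ∑ i ∈ (range n).filter (fun i => 2 * i < n), ee d a χ i * ss a χ (n - i) +
    ∑ f ∈ Sm F n, aF d a f * χ f

/-- **DUAL** (duality).  Proof.  `∑_i |t_i|² = ∑_x b_x ∑_i conj(t_i) φ_i(x)` with `t_i = ∑_x b_x φ_i(x)`, and
Cauchy-Schwarz with `c = conj t`. -/
def S_DUAL : Prop := ∀ (α : Type) (S : Finset α) (ι : Type) [Fintype ι] (φ : ι → α → ℂ) (U : ℝ), 0 ≤ U →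
  (∀ c : ι → ℂ, ∑ x ∈ S, ‖∑ i, c i * φ i x‖ ^ 2 ≤ U * nsq c) →
  ∀ b : α → ℂ, ∑ i, ‖∑ x ∈ S, b x * φ i x‖ ^ 2 ≤ U * ∑ x ∈ S, ‖b x‖ ^ 2

/-- **LIN** (solutions of the moment equations).  Proof.  Look for `a(x) = ∑_j c_j conj φ_j(x)`: the
equations are `G c = t`, `G_ij = ∑_x φ_i(x) conj φ_j(x)`, `c* G c = ∑_x |∑ c_j conj φ_j|² ≥ lo |c|²` (hypothesis
for `conj c`), so `G` is invertible; `c* t = c* G c ≥ lo |c|²` gives `|c| ≤ |t|/lo` and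
`∑_x |a(x)|² = c* G c = |c* t| ≤ |t|²/lo`.  `|a(x)| ≤ ∑ |c_j| ≤ sqrt |ι| |c|`. -/
def S_LIN : Prop := ∀ (α : Type) (S : Finset α) (ι : Type) [Fintype ι] (φ : ι → α → ℂ)
  (lo : ℝ) (t : ι → ℂ), 0 < lo → (∀ i, ∀ x ∈ S, ‖φ i x‖ ≤ 1) →
  (∀ c : ι → ℂ, lo * nsq c ≤ ∑ x ∈ S, ‖∑ i, c i * φ i x‖ ^ 2) →
  ∃ a : α → ℂ, (∀ i, ∑ x ∈ S, a x * φ i x = t i) ∧ ∑ x ∈ S, ‖a x‖ ^ 2 ≤ nsq t / lo ∧
    ∀ x ∈ S, ‖a x‖ ≤ Real.sqrt (Fintype.card ι) * Real.sqrt (nsq t) / lo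

/-- **WC** (convolution of the weights).  `HH i + HH (n-i) ≤ HH n + 1`; for `m = min i (n-i)`:
`i (n-i)/n ≥ m/2`; `2 · 2^(5/2) · ζ(5/2) ≤ 16`, `2 · 2^4 · ζ(4) ≤ 35`. -/
def S_WC : Prop := ∀ (q : ℝ) (d n : ℕ), 3 ≤ q → 1 ≤ d →
  ∑ i ∈ Icc 1 (n - 1), ww q d i * ww q d (n - i) ≤ 1600 * ww q d n ∧
  ∑ i ∈ Icc 1 (n - 1), om q d i * om q d (n - i) ≤ 350000 * om q d n

/-- **GI** (Gronwall).  Induction on `n`:
`G n ≤ z n + ∑_{j<n} (j/n) z j G(n-j) ≤ ζ w n + (5/4) ζ² K w n ≤ (5/4) ζ w n`. -/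
def S_GI : Prop := ∀ (G z w : ℕ → ℝ) (ζ K : ℝ) (N : ℕ), 0 ≤ ζ → ζ * K ≤ 1 / 8 → G 0 = 1 →
  (∀ n, 0 ≤ G n) → (∀ n, 0 ≤ z n) → (∀ n, 0 ≤ w n) →
  (∀ n, 1 ≤ n → n ≤ N → ∑ i ∈ Icc 1 (n - 1), w i * w (n - i) ≤ K * w n) →
  (∀ n, 1 ≤ n → n ≤ N → z n ≤ ζ * w n) →
  (∀ n, 1 ≤ n → n ≤ N → (n : ℝ) * G n ≤ ∑ j ∈ Icc 1 n, (j : ℝ) * z j * G (n - j)) →
  ∀ n, 1 ≤ n → n ≤ N → G n ≤ 5 / 4 * ζ * w n

/-- **ZB** (mass of the prime powers).  Uses LOC1, CPR, ZBN.  Proof.  Terms with `deg P = j` (`k = 1`, `hh 1 = a`):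
`∑ |a P| ≤ (q^j/j)^(1/2) (∑ |a|²)^(1/2) ≤ (q^j/j)^(1/2) B (om j)^(1/2) = B ww j`, and `∑ |a|² ≤ B² om j`.  Terms
with `deg P = m < j`, `k = j/m ≥ 2`: if `j < d` they are zero (`2m ≤ j < d`, so `a P = 0`, and
`hh d 0 k = 0` for `1 ≤ k < d` by LOC1).  Let `j ≥ d`.  For `k ≥ d - 1`: `|hh k| ≤ 3^(k/d)`, `k ≤ j`, at most
`q^m ≤ q^(j/(d-1))` polynomials: `≤ q^(3j/d)`, squares `≤ q^(4j/d)` (`3 ≤ q`).  For `2 ≤ k ≤ d - 2`: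
`|hh k| = |a P|^k ≤ |a P|²` (also `|hh k|² ≤ |a P|²`; `|a P| ≤ q^(-d/8) ≤ 1/4` by `Good.small`, `Good.zero`),
`∑ ≤ B² om m ≤ B² 10000^(j/d + 1) q^(j/8)` (`m ≤ j/2`,
`HH m ≤ j/d + 1`; if `2 m < d` zero).  At most `j` values of `m`.  So the sums over `deg P < j` are
`≤ j (q^(4j/d) + 10000^(j/d+1) q^(j/8))`, which for `j ≥ d ≥ d₀` is less than `B ww j` and than
`B² om j / (10^6 j)` (`om j ≥ 10000^(2j/d) q^(j/4)/j^4`, exponential gain `q^(j/8 - 4j/d)`). -/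
def S_ZB : Prop := ∃ d₀ : ℕ, ∀ d : ℕ, d₀ ≤ d → ∀ (F : Type) [Field F] [Fintype F],
  3 ≤ Fintype.card F → ∀ (N : ℕ) (a : F[X] → ℂ), Good F d N a → ∀ j : ℕ, 1 ≤ j → j ≤ N →
  ∑ P ∈ PD F j, ‖hh d (a P) (j / P.natDegree)‖ ≤ 2 * BB * ww (qq F) d j ∧
  ∑ P ∈ PD F j, ‖hh d (a P) (j / P.natDegree)‖ ^ 2 ≤ 2 * BB ^ 2 * om (qq F) d j ∧
  ∑ P ∈ (PD F j).filter (fun P => P.natDegree < j), ‖hh d (a P) (j / P.natDegree)‖ ^ 2 ≤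
    BB ^ 2 * om (qq F) d j / (10 ^ 6 * j)

/-- **GB** (masses).  Uses REC, GI, WC, ZB, MUL, T2 (`g = |aF|` and `g = |aF|²`).  First: `ζ = 2B`, `K = 1600`,
`ζ K = 1/8`, `(5/4) 2 B = 5/2 B`.  Second: `ζ = 2B²`, `K = 350000`; `(5/2) B²`.  Third: T2 with `g = |aF|²`:
`pp_j ≤ B² om j/(10^6 j)` (ZB), `T_i ≤ 3 B² om i`, `T_0 = 1`: the first sum is
`≤ (2/(10^6 n)) B² (om n + 3 B² 350000 om n)`; in the second `om i om (n-i) ≤ 10^4 (16/(3n))^4 om n`, at most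
`n` terms: `≤ 9 B⁴ 10^4 810 n^(-3) om n ≤ B² om n (0.12/n^3)`, and `n ≥ d₀/2` is large. -/
def S_GB : Prop := ∃ d₀ : ℕ, ∀ d : ℕ, d₀ ≤ d → ∀ (F : Type) [Field F] [Fintype F],
  3 ≤ Fintype.card F → ∀ (N : ℕ) (a : F[X] → ℂ), Good F d N a → ∀ n : ℕ, 1 ≤ n → n ≤ N →
  ∑ f ∈ Mon F n, ‖aF d a f‖ ≤ 5 / 2 * BB * ww (qq F) d n ∧
  ∑ f ∈ Mon F n, ‖aF d a f‖ ^ 2 ≤ 5 / 2 * BB ^ 2 * om (qq F) d n ∧
  (d ≤ 2 * n → ∑ f ∈ Sm F n, ‖aF d a f‖ ^ 2 ≤ 1 / 10 ^ 4 * (BB ^ 2 * om (qq F) d n / n))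

/-- **EB** (mean squares over families of characters).  Uses NO, UP, DUAL, DEC, GB, WC.  Proof.
`D₂ = 2 d₁ + 2`.  For `m > n/2` (so `m ≥ d₁ (R+1)`) NO and DUAL: `(∑_i |ss(χ_i, m)|²)^(1/2) ≤
(2 q^m/m)^(1/2) (∑ |a|²)^(1/2) ≤ √2 B ww m` (for `m ≥ 1`).  First claim `m = n`.  DEC: `ee n - ss n =
∑_{1 ≤ i < n/2} ee(i) ss(n-i) + ∑_{Sm n} aF χ`.  Triangle inequality in `ℓ²(ι)`, `|ee(i)| ≤ ∑ |aF| ≤
(5/2) B ww i`: the first part is `≤ (5/2) B √2 B ∑ ww i ww(n-i) ≤ (5/2) √2 · 1600 B² ww n = 0.221 B ww n`.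
Second part: UP (`k = n ≥ 2R`) and DUAL: `≤ (q^n ∑_{Sm n} |aF|²)^(1/2) ≤ (10^(-4) B² q^n om n / n)^(1/2) =
0.01 B ww n`.  Sum `≤ 0.24 B ww n`. -/
def S_EB : Prop := ∃ d₀ D₂ : ℕ, ∀ d : ℕ, d₀ ≤ d → ∀ (F : Type) [Field F] [Fintype F],
  ringChar F ≠ 2 → ∀ (N : ℕ) (a : F[X] → ℂ), Good F d N a → ∀ n : ℕ, n ≤ N → d ≤ 2 * n →
  ∀ (R : ℕ) (ι : Type) [Fintype ι] (χ : ι → F[X] → ℂ), Fam R χ → D₂ * (R + 1) ≤ n →
  Real.sqrt (∑ i, ‖ss a (χ i) n‖ ^ 2) ≤ 3 / 2 * BB * ww (qq F) d n ∧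
  Real.sqrt (∑ i, ‖ee d a (χ i) n - ss a (χ i) n‖ ^ 2) ≤ 1 / 4 * BB * ww (qq F) d n

/-- **TB** (the prescribed values).  Uses EB, GB, CNT, UNI, LOC1, TBN.  Proof.  `XS` nonempty gives `d ≤ d (L0 - 1) ≤ D ≤ 2n`.
Split by `D` (a multiple of `d`, `n ≤ D < 2n`, at most `n/d + 1` values); by CNT (`N = D/d + 1`, `L0 ≥ 2`)
at most `4 q^(2D/d)` characters for each `D`; `|tau|² = q^(2n-D) |ee(D-n)|²`.  (a) `D = n`: `|tau|² = q^n`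
(`ee 0 = 1`): total
`≤ 4 q^(n + 2n/d)`.  (b) `n < D ≤ 3n/2`, `i = D - n ≤ n/2`:
`|ee(i)| ≤ (5/2) B ww i`, `2n - D = n - i`: total `≤ 4 q^(3n/d) q^(n-i) (25/4) B² ww(i)²`, and
`ww(i)² q^(n-i) ≤ ww(n)² n^5 q^(-(n-i)/4) ≤ ww(n)² n^5 q^(-n/8)`.  (a) and (b) are `≤ 10^(-3) B² ww(n)²` for
`n ≥ d/2 ≥ d₀/2`.  (c) `3n/2 < D < 2n`, `n/2 < i < n`: the family of the `χ` with this `D` has level
`≤ R = D/d + 1 ≤ 2n/d + 1` (`deg Q + l ≤ deg Q + max L0 l = D/d + 1`), separated by UNI; `D₂ (R+1) ≤ i`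
for `d` large (`n ≥ d/2`, so `R + 1 ≤ 6n/d`), and `d ≤ 2i` (if not, `ee(i) = 0`: since `a P = 0` for
`2 deg P < d` and `hh d 0 k = 0` for `0 < k < d`, `aF f = 0` for `0 < deg f < d/2`).  EB:
`(∑ |ee(i)|²)^(1/2) ≤ (3/2 + 1/4) B ww i ≤ 2 B ww i`.  Total `≤ q^(n-i) 4 B² ww(i)² =
4 B² ww(n)² 10000^(HH i - HH n) q^(-(n-i)/4) (n/i)^5 ≤ 128 · 10^(-4) q^(-(n-i)/4) B² ww(n)²` because
`HH n ≥ HH i + 1` (`D = m d`, `2n/d > m`, `2i/d = 2m - 2n/d < m`).  `n - i = 2n - D ≥ 1` and the values differ by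
multiples of `d`: the sum over `D` is `≤ 0.0128 · 1.01 · B² ww(n)²`.  Altogether `≤ 0.015 B² ww(n)² ≤
(B ww(n)/5)²`. -/
def S_TB : Prop := ∃ d₀ : ℕ, ∀ d : ℕ, d₀ ≤ d → ∀ (F : Type) [Field F] [Fintype F],
  ringChar F ≠ 2 → ∀ (L0 n : ℕ) (a : F[X] → ℂ), 2 ≤ L0 → Good F d (n - 1) a →
  ∀ ε : (F[X] → ℂ) → ℂ, (∀ χ, ‖ε χ‖ = 1) → ∀ S : Finset (F[X] × ℕ × (F[X] → ℂ)),
  (∀ p ∈ S, p ∈ XS F d L0 n) →
  ∑ p ∈ S, ‖tau d a ε n (DD d L0 p.1 p.2.1) p.2.2‖ ^ 2 ≤ (1 / 5 * BB * ww (qq F) d n) ^ 2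

/-- **MAIN** (assembly by helper284: recursion on the degree with LIN, NO, CNT, UNI, EB, TB, HC). -/
def S_MAIN : Prop := ∃ d₀ : ℕ, ∀ d : ℕ, d₀ ≤ d → ∀ (F : Type) [Field F] [Fintype F],
  ringChar F ≠ 2 → ∀ L0 : ℕ, 2 ≤ L0 → ∀ ε : (F[X] → ℂ) → ℂ, (∀ χ, ‖ε χ‖ = 1) → ∃ a : F[X] → ℂ,
    (∀ P : F[X], P.Monic → Irreducible P → ‖a P‖ ≤ qq F ^ (-((P.natDegree : ℝ) / 4)) ∧ ‖a P‖ ≤ 1 / 4) ∧
    ∀ (Q : F[X]) (l : ℕ) (χ : F[X] → ℂ), Prim Q l χ →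
      (∀ n : ℕ, DD d L0 Q l < n → ee d a χ n = 0) ∧
      ∀ n m : ℕ, n + m = DD d L0 Q l → m ≤ n →
        ee d a χ n = ε χ * (Real.sqrt (qq F) : ℂ) ^ (n - m) * conj (ee d a χ m)

end Pool.Agent.Q284.PS
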