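import Pool.Agent.Q284.PS.Stm2

/-!
# Project PS: statements, part 3 (Euler products and Dirichlet series for the final theorem)
-/

set_option autoImplicit false

open Finset Polynomial ComplexConjugate
open Pool.Agent.H341R2.Sharp (Mon)

namespace Pool.Agent.Q284.PS

/-- **EUL** (Euler products over `F[X]`).  Proof.  Let `‖g‖` be summable over the monic polynomials.  For a
finite set `S` of monic irreducible polynomials let `N(S)` be the set of the monic `f` all of whose monic prime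
factors are in `S`.  By induction on `S` (`N(S ∪ {P}) = {P^k f : k ≥ 0, f ∈ N(S)}`, uniquely, `P^k` prime to `f`)
`∏_{P ∈ S} ∑'_k g(P^k) = ∑'_{f ∈ N(S)} g(f)` (absolutely convergent; `k ↦ P^k` is injective).  For a finite set
`T` of monic polynomials let `S₀` be the set of all their monic prime factors: for `S ⊇ S₀`, `T ⊆ N(S)`, so
`|∑'_f g(f) - ∏_{P ∈ S} ∑'_k g(P^k)| ≤ ∑'_{f ∉ N(S)} ‖g(f)‖ ≤ ∑'_{f ∉ T} ‖g(f)‖`, which is small. -/
def S_EUL : Prop := ∀ (F : Type) [Field F] (g : F[X] → ℂ), g 1 = 1 →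
  (∀ f h : F[X], f.Monic → h.Monic → IsCoprime f h → g (f * h) = g f * g h) →
  Summable (fun f : {f : F[X] // f.Monic} => ‖g f.1‖) →
  HasProd (fun P : {P : F[X] // P.Monic ∧ Irreducible P} => ∑' k : ℕ, g (P.1 ^ k))
    (∑' f : {f : F[X] // f.Monic}, g f.1)

/-- **LSER** (the local factor as a series).  Uses LOC1.  Proof.  `‖hh d a k‖ ≤ 3^(k/d) ≤ (3/2)^k` (`d ≥ 4`,
`3^(1/4) < 3/2`), `‖x‖ ≤ 1/2`, so the series converges absolutely; the product with the polynomial is `1`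
(Cauchy product, `loc d a * (loc d a)⁻¹ = 1` coefficientwise, as the constant coefficient of `loc d a` is
`1`). -/
def S_LSER : Prop := ∀ (d : ℕ) (a x : ℂ), 4 ≤ d → ‖a‖ ≤ 1 / 4 → ‖x‖ ≤ 1 / 2 →
  HasSum (fun k : ℕ => hh d a k * x ^ k) (1 - a * x - (-1) ^ d * conj a * x ^ (d - 1) + (-1) ^ d * x ^ d)⁻¹

/-- **DSUM** (from the degrees to the Dirichlet series).  Proof.  Group the monic polynomials by their degree
(`Mon F k` is the fibre of degree `k`; `Equiv.sigmaFiberEquiv`, `summable_sigma_of_nonneg`,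
`Summable.tsum_sigma'`): the norms of the terms have sum `∑_k (∑_{f ∈ Mon k} ‖g f‖) r^k`. -/
def S_DSUM : Prop := ∀ (F : Type) [Field F] [Fintype F] (g : F[X] → ℂ) (z : ℂ),
  Summable (fun k : ℕ => (∑ f ∈ Mon F k, ‖g f‖) * ‖z‖ ^ k) →
  Summable (fun f : {f : F[X] // f.Monic} => ‖g f.1 * z ^ f.1.natDegree‖) ∧
  ∑' f : {f : F[X] // f.Monic}, g f.1 * z ^ f.1.natDegree = ∑' k : ℕ, (∑ f ∈ Mon F k, g f) * z ^ k

/-- **RSP** (convergence of the Rankin-Selberg product).  Proof.  Let `x = |P|^(-s)`, `|x| = q^(-σ deg P) ≤ 1/2`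
(`q ≥ 3`, `σ > 1/2` gives `|x| ≤ 3^(-1/2)`; use the bound for `deg P` large, or `|x| ≤ 3^(-1/2) < 1`).
`∏_{i,j} (1 - α_i (conj α_j) x)⁻¹ = 1 + |∑ α|² x + O(x²)` with a constant depending on `n` only (for
`|x| ≤ 3^(-1/2)`; e.g. by Taylor's formula, or: the product is `∏ (1 + y_ij)`, `y_ij = β x/(1 - β x)`,
`y_ij = β x + O(x²)`), so `‖factor - 1‖ ≤ q^(-deg P/2) q^(-σ deg P) + C_n q^(-2σ deg P)`, and the sum over all
primes converges, since there are at most `q^k` primes of degree `k` and `σ > 1/2`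
(`multipliable_one_add_of_summable`).  The factors are not zero. -/
def S_RSP : Prop := ∀ (F : Type) [Field F] [Fintype F], ringChar F ≠ 2 → ∀ (n : ℕ) (α : F[X] → Fin n → ℂ),
  (∀ P : F[X], P.Monic → Irreducible P → (∀ j, ‖α P j‖ = 1) ∧
    ‖∑ j, α P j‖ ≤ qq F ^ (-((P.natDegree : ℝ) / 4))) →
  ∀ s : ℂ, 1 / 2 < s.re → Summable (fun P : {P : F[X] // P.Monic ∧ Irreducible P} =>
    ‖(∏ i, ∏ j, (1 - α P.1 i * conj (α P.1 j) * (qq F : ℂ) ^ (-s * P.1.natDegree))⁻¹) - 1‖)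

/-- **GSUM** (numerical).  Proof.  `HH d k ≤ 2k/d + 1`, so the terms are `≤ (5/2) BB 100 (100^(2/d) q^(-1/8))^k`,
and `100^(2/d) ≤ 3^(1/16) ≤ q^(1/16)` for `d` large. -/
def S_GSUM : Prop := ∃ d₀ : ℕ, ∀ d : ℕ, d₀ ≤ d → ∀ (q σ : ℝ), 3 ≤ q → 3 / 4 ≤ σ →
  Summable (fun k : ℕ => ww q d k * (q ^ (-σ)) ^ k)

end Pool.Agent.Q284.PS
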