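import Pool.Agent.Q284.PS.Fin
import Pool.Agent.Q284.PS.Stm3

/-!
# Project PS: assembly of the final theorem
-/

set_option autoImplicit false

open Finset Polynomial ComplexConjugate
open Pool.Agent.H341R2.Sharp (Mon mem_Mon)

namespace Pool.Agent.Q284.PS

section Final

variable {F : Type} [Field F]

variable (F) in
/-- the finite places of `F(T)` -/
abbrev Place : Type := {P : F[X] // P.Monic ∧ Irreducible P}

variable [Fintype F] {n : ℕ}

/-- `|P|^(-s)` for the place `P`, `|P| = q^(deg P)` -/
noncomputable def absPow (P : F[X]) (s : ℂ) : ℂ := (Fintype.card F : ℂ) ^ (-s * P.natDegree)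

/-- the Satake parameters `α P j` are unitary (the unramified representations `Π_P` are tempered) with product
one (trivial central character) -/
def Tempered (α : F[X] → Fin n → ℂ) : Prop :=
  ∀ P : F[X], P.Monic → Irreducible P → (∀ j, ‖α P j‖ = 1) ∧ ∏ j, α P j = 1

/-- the traces are at most `|P|^(-1/4)` -/
def SmallTraces (α : F[X] → Fin n → ℂ) : Prop :=
  ∀ P : F[X], P.Monic → Irreducible P →
    ‖∑ j, α P j‖ ≤ (Fintype.card F : ℝ) ^ (-((P.natDegree : ℝ) / 4))

/-- `L` is the `L`-function (without the place at infinity) of the Satake parameters `α` twisted by `χ`,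
and the Euler product converges for `Re s > 3/4` -/
def IsLFunction (α : F[X] → Fin n → ℂ) (χ : F[X] → ℂ) (L : ℂ → ℂ) : Prop :=
  ∀ s : ℂ, 3 / 4 < s.re →
    HasProd (fun P : Place F => ∏ j, (1 - α P.1 j * χ P.1 * absPow P.1 s)⁻¹) (L s)

/-- the Rankin-Selberg Euler product of the `α` with their conjugates converges absolutely at `s` -/
def RankinSelbergConverges (α : F[X] → Fin n → ℂ) (s : ℂ) : Prop :=
  Summable (fun P : Place F =>
    ‖(∏ i, ∏ j, (1 - α P.1 i * conj (α P.1 j) * absPow P.1 s)⁻¹) - 1‖)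

/-- degree of the twisted `L`-function: `n` times (degree of the conductor of `χ` at the finite places
`+ max M (l + 1) - 2`) -/
def twistDegree (n M : ℕ) (Q : F[X]) (l : ℕ) : ℕ := n * (Q.natDegree + max M (l + 1) - 2)

/-- the twisted `L`-function is nice: entire, a polynomial of degree `D` in `q^(-s)`, with the functional
equation with root number `w` -/
def Nice (q : ℕ) (D : ℕ) (w : ℂ) (L : ℂ → ℂ) : Prop :=
  Differentiable ℂ L ∧ (∃ p : ℂ[X], p.natDegree = D ∧ ∀ s : ℂ, L s = p.eval ((q : ℂ) ^ (-s))) ∧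
  ∀ s : ℂ, L s = w * (q : ℂ) ^ ((D : ℂ) * (1 / 2 - s)) * conj (L (1 - conj s))

end Final

/-- the final statement -/
def FinalStm : Prop := ∃ n₀ : ℕ, ∀ n : ℕ, n₀ ≤ n → ∀ (F : Type) [Field F] [Fintype F], ringChar F ≠ 2 →
  ∀ M : ℕ, 3 ≤ M → ∀ ε : (F[X] → ℂ) → ℂ, (∀ χ, ‖ε χ‖ = 1) → ∃ α : F[X] → Fin n → ℂ,
    Tempered α ∧ SmallTraces α ∧ (∀ s : ℂ, 1 / 2 < s.re → RankinSelbergConverges α s) ∧
    ∀ (Q : F[X]) (l : ℕ) (χ : F[X] → ℂ), Prim Q l χ →
      ∃ L : ℂ → ℂ, IsLFunction α χ L ∧ Nice (Fintype.card F) (twistDegree n M Q l) (ε χ) L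

theorem hay_cm {F : Type} [Field F] {Q : F[X]} {l : ℕ} {χ : F[X] → ℂ} (h : Hay Q l χ) : CM χ :=
  ⟨h.one, h.mul⟩

theorem cm_pow {F : Type} [Field F] {χ : F[X] → ℂ} (h : CM χ) {P : F[X]} (hP : P.Monic) (k : ℕ) :
    χ (P ^ k) = χ P ^ k := by
  induction k with
  | zero => rw [pow_zero, pow_zero, h.1]
  | succ k ih => rw [pow_succ, pow_succ, h.2 _ _ (hP.pow k) hP, ih]

theorem t_final (hM : MAIN2) (hGB : S_GB) (hEUL : S_EUL) (hLSER : S_LSER) (hDSUM : S_DSUM)
    (hRSP : S_RSP) (hGSUM : S_GSUM) (hLOC2 : S_LOC2) (hMUL : S_MUL) : FinalStm := by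
  classical
  obtain ⟨d₁, hM⟩ := hM
  obtain ⟨d₂, hGB⟩ := hGB
  obtain ⟨d₃, hGSUM⟩ := hGSUM
  refine ⟨4 + d₁ + d₂ + d₃, ?_⟩
  intro d hd F _ _ hF M hM3 ε hε
  obtain ⟨a, hgood, ha, hfe⟩ := hM d (by omega) F hF (M - 1) (by omega) ε hε
  have hq3 : 3 ≤ qq F := three_le_qq hF
  have hq0 : 0 < qq F := by linarith
  have hqq : qq F = (Fintype.card F : ℝ) := rfl
  have hqC : ((Fintype.card F : ℕ) : ℂ) = ((qq F : ℝ) : ℂ) := by rw [hqq]; simp
  have hq0C : ((Fintype.card F : ℕ) : ℂ) ≠ 0 := by
    rw [hqC]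
    exact_mod_cast hq0.ne'
  -- the Satake parameters
  have hα : ∀ P : F[X], ∃ α : Fin d → ℂ, P.Monic → Irreducible P → (∀ j, ‖α j‖ = 1) ∧
      (1 - C (a P) * X - C ((-1) ^ d * conj (a P)) * X ^ (d - 1) + C ((-1) ^ d) * X ^ d : ℂ[X]) =
      ∏ j, (1 - C (α j) * X) ∧ ∏ j, α j = 1 := by
    intro P
    by_cases h : P.Monic ∧ Irreducible P
    · obtain ⟨α, h1⟩ := hLOC2 d (a P) (by omega) (ha P h.1 h.2).2
      exact ⟨α, fun _ _ => h1⟩
    · exact ⟨fun _ => 1, fun h1 h2 => absurd ⟨h1, h2⟩ h⟩
  choose α hα using hα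
  -- the trace
  have htr : ∀ P : F[X], P.Monic → Irreducible P → ∑ j, α P j = a P := by
    intro P h1 h2
    have h3 := (hα P h1 h2).2.1
    have h4 : (1 - C (a P) * X - C ((-1) ^ d * conj (a P)) * X ^ (d - 1) +
        C ((-1) ^ d) * X ^ d : ℂ[X]).coeff 1 = (∏ j, (1 - C (α P j) * X) : ℂ[X]).coeff 1 := by
      rw [h3]
    have h5 : (∏ j, (1 - C (α P j) * X) : ℂ[X]).coeff 1 = - ∑ j, α P j := by
      have h6 : ∀ s : Finset (Fin d), (∏ j ∈ s, (1 - C (α P j) * X) : ℂ[X]).coeff 0 = 1 ∧
          (∏ j ∈ s, (1 - C (α P j) * X) : ℂ[X]).coeff 1 = - ∑ j ∈ s, α P j := by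
        intro s
        induction s using Finset.induction_on with
        | empty => simp [coeff_one]
        | insert j s hj ih =>
          rw [prod_insert hj, sum_insert hj, sub_mul, one_mul, mul_assoc]
          refine ⟨?_, ?_⟩
          · rw [coeff_sub, ih.1, coeff_C_mul, coeff_X_mul_zero, mul_zero, sub_zero]
          · rw [coeff_sub, ih.2, coeff_C_mul, coeff_X_mul, ih.1]
            ring
      exact (h6 univ).2
    rw [h5] at h4
    have h7 : (1 - C (a P) * X - C ((-1) ^ d * conj (a P)) * X ^ (d - 1) +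
        C ((-1) ^ d) * X ^ d : ℂ[X]).coeff 1 = - a P := by
      rw [coeff_add, coeff_sub, coeff_sub, coeff_C_mul, coeff_C_mul, coeff_C_mul, coeff_X_one,
        coeff_X_pow, coeff_X_pow, coeff_one, if_neg (by omega), if_neg (by omega), if_neg (by omega)]
      ring
    rw [h7] at h4
    exact (neg_injective h4).symm
  refine ⟨α, ?_, ?_, ?_, ?_⟩
  · intro P h1 h2
    exact ⟨(hα P h1 h2).1, (hα P h1 h2).2.2⟩
  · intro P h1 h2
    rw [htr P h1 h2, ← hqq]
    exact (ha P h1 h2).1
  · intro s hs
    have h1 := hRSP F hF d α (fun P h1 h2 => ⟨(hα P h1 h2).1, by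
      rw [htr P h1 h2]
      exact (ha P h1 h2).1⟩) s hs
    unfold RankinSelbergConverges absPow
    rw [hqC]
    exact h1
  · intro Q l χ hχ
    have hcm := hay_cm hχ.1
    obtain ⟨hz, hfe⟩ := hfe Q l χ hχ
    set D := DD d (M - 1) Q l with hD
    have hDtw : twistDegree d M Q l = D := by
      rw [hD]
      unfold twistDegree DD
      congr 1
      have : max M (l + 1) = max (M - 1) l + 1 := by omega
      omega
    set e : ℕ → ℂ := fun k => ee d a χ k with he
    -- symmetric form of the functional equation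
    have hsym : ∀ k m : ℕ, k + m = D →
        e k * (Real.sqrt (qq F) : ℂ) ^ m = ε χ * (Real.sqrt (qq F) : ℂ) ^ k * conj (e m) := by
      intro k m hkm
      have hr0 : (Real.sqrt (qq F) : ℂ) ≠ 0 := by
        have : 0 < Real.sqrt (qq F) := Real.sqrt_pos.2 hq0
        exact_mod_cast this.ne'
      rcases le_total m k with h | h
      · have h1 := hfe k m hkm h
        rw [he]
        simp only []
        rw [h1]
        have h2 : (Real.sqrt (qq F) : ℂ) ^ k = (Real.sqrt (qq F) : ℂ) ^ (k - m) * (Real.sqrt (qq F) : ℂ) ^ m := by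
          rw [← pow_add]
          congr 1
          omega
        rw [h2]
        ring
      · have h1 := hfe m k (by omega) h
        have h2 : conj (e m) = conj (ε χ) * (Real.sqrt (qq F) : ℂ) ^ (m - k) * e k := by
          rw [he]
          simp only []
          rw [h1, map_mul, map_mul, map_pow, Complex.conj_ofReal, Complex.conj_conj]
        rw [h2]
        have h3 : ε χ * conj (ε χ) = 1 := by
          rw [Complex.mul_conj, Complex.normSq_eq_norm_sq, hε]
          norm_num
        have h4 : (Real.sqrt (qq F) : ℂ) ^ m = (Real.sqrt (qq F) : ℂ) ^ (m - k) * (Real.sqrt (qq F) : ℂ) ^ k := by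
          rw [← pow_add]
          congr 1
          omega
        rw [h4]
        linear_combination (-(e k * (Real.sqrt (qq F) : ℂ) ^ (m - k) * (Real.sqrt (qq F) : ℂ) ^ k)) * h3
    have he0 : e 0 = 1 := by
      rw [he]
      simp only []
      unfold ee
      rw [Pool.Agent.H341R2.Sharp.Mon_zero, sum_singleton, (hMUL F d a (by omega)).1, hcm.1, one_mul]
    let L : ℂ → ℂ := fun s => ∑ k ∈ range (D + 1), e k * ((Fintype.card F : ℂ) ^ (-s)) ^ k
    refine ⟨L, ?_, ?_, ?_, ?_⟩
    · -- the Euler product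
      intro s hs
      set z : ℂ := (Fintype.card F : ℂ) ^ (-s) with hzd
      have hznorm : ‖z‖ = qq F ^ (-s.re) := by
        rw [hzd, hqC, Complex.norm_cpow_eq_rpow_re_of_pos hq0]
        simp
      have hz1 : ‖z‖ ≤ 1 / 2 := by
        rw [hznorm]
        calc qq F ^ (-s.re) ≤ qq F ^ (-(3 / 4 : ℝ)) := by
              apply Real.rpow_le_rpow_of_exponent_le (by linarith)
              linarith
          _ ≤ (3 : ℝ) ^ (-(3 / 4 : ℝ)) := by
              rw [Real.rpow_neg hq0.le, Real.rpow_neg (by norm_num)]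
              apply inv_anti₀ (by positivity)
              exact Real.rpow_le_rpow (by norm_num) hq3 (by norm_num)
          _ ≤ 1 / 2 := by
              rw [Real.rpow_neg (by norm_num)]
              have h1 : (2 : ℝ) ≤ 3 ^ (3 / 4 : ℝ) := by
                have h2 : ((2 : ℝ)) = ((2 : ℝ) ^ (4 : ℕ)) ^ ((1 : ℝ) / 4) := by
                  rw [← Real.rpow_natCast, ← Real.rpow_mul (by norm_num)]
                  norm_num
                have h3 : (3 : ℝ) ^ (3 / 4 : ℝ) = ((3 : ℝ) ^ (3 : ℕ)) ^ ((1 : ℝ) / 4) := by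
                  rw [← Real.rpow_natCast, ← Real.rpow_mul (by norm_num)]
                  norm_num
                rw [h2, h3]
                apply Real.rpow_le_rpow (by norm_num) (by norm_num) (by norm_num)
              calc ((3 : ℝ) ^ (3 / 4 : ℝ))⁻¹ ≤ (2 : ℝ)⁻¹ := inv_anti₀ (by norm_num) h1
                _ = 1 / 2 := by norm_num
      have hchi : ∀ f : F[X], ‖χ f‖ ≤ 1 := fun f => norm_le_one hχ.1 f
      have hsum : Summable (fun k : ℕ => (∑ f ∈ Mon F k, ‖aF d a f * χ f‖) * ‖z‖ ^ k) := by
        rw [← summable_nat_add_iff 1]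
        have h1 := hGSUM d (by omega) (qq F) s.re hq3 hs.le
        rw [← summable_nat_add_iff 1] at h1
        refine Summable.of_nonneg_of_le (fun k => by positivity) (fun k => ?_) (h1.mul_left (5 / 2 * BB))
        have h2 := (hGB d (by omega) F (three_le_card hF) (k + 1) a (hgood (k + 1)) (k + 1) (by omega)
          le_rfl).1
        have h3 : ∑ f ∈ Mon F (k + 1), ‖aF d a f * χ f‖ ≤ ∑ f ∈ Mon F (k + 1), ‖aF d a f‖ := by
          apply sum_le_sum
          intro f _
          rw [norm_mul]
          have := hchi f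
          have h4 := norm_nonneg (aF d a f)
          nlinarith
        rw [hznorm]
        calc (∑ f ∈ Mon F (k + 1), ‖aF d a f * χ f‖) * (qq F ^ (-s.re)) ^ (k + 1)
            ≤ (5 / 2 * BB * ww (qq F) d (k + 1)) * (qq F ^ (-s.re)) ^ (k + 1) := by
              apply mul_le_mul_of_nonneg_right (h3.trans h2) (by positivity)
          _ = 5 / 2 * BB * (ww (qq F) d (k + 1) * (qq F ^ (-s.re)) ^ (k + 1)) := by ring
      obtain ⟨h1, h2⟩ := hDSUM F (fun f => aF d a f * χ f) z hsum
      have h3 := hEUL F (fun f => aF d a f * χ f * z ^ f.natDegree) (by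
          simp [(hMUL F d a (by omega)).1, hcm.1]) (by
          intro f h hf hh hfh
          rw [(hMUL F d a (by omega)).2.1 f h hf hh hfh, hcm.2 f h hf hh, hf.natDegree_mul hh, pow_add]
          ring) h1
      have h4 : ∑' f : {f : F[X] // f.Monic}, aF d a f.1 * χ f.1 * z ^ f.1.natDegree = L s := by
        rw [h2]
        rw [tsum_eq_sum (s := range (D + 1))]
        · rfl
        · intro k hk
          rw [mem_range, not_lt] at hk
          have : ∑ f ∈ Mon F k, aF d a f * χ f = 0 := hz k (by omega)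
          rw [this, zero_mul]
      rw [h4] at h3
      refine (congrArg (fun G => HasProd G (L s)) ?_).mpr h3
      funext P'
      obtain ⟨P, hP1, hP2⟩ := P'
      have hx : ‖χ P * z ^ P.natDegree‖ ≤ 1 / 2 := by
        rw [norm_mul, norm_pow]
        have h5 : 1 ≤ P.natDegree := hP2.natDegree_pos
        have h6 : ‖z‖ ^ P.natDegree ≤ ‖z‖ ^ 1 :=
          pow_le_pow_of_le_one (norm_nonneg z) (hz1.trans (by norm_num)) h5
        rw [pow_one] at h6
        have h7 := hchi P
        have h8 : 0 ≤ ‖z‖ ^ P.natDegree := by positivity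
        nlinarith [norm_nonneg (χ P)]
      have h5 := hLSER d (a P) (χ P * z ^ P.natDegree) (by omega) (ha P hP1 hP2).2 hx
      have h6 : (fun k : ℕ => aF d a (P ^ k) * χ (P ^ k) * z ^ (P ^ k).natDegree) =
          fun k : ℕ => hh d (a P) k * (χ P * z ^ P.natDegree) ^ k := by
        funext k
        rw [(hMUL F d a (by omega)).2.2 P k hP1 hP2, cm_pow hcm hP1, hP1.natDegree_pow, mul_pow,
          mul_comm k P.natDegree, pow_mul]
        ring
      show ∏ j, (1 - α P j * χ P * absPow P s)⁻¹ = ∑' k : ℕ, aF d a (P ^ k) * χ (P ^ k) * z ^ (P ^ k).natDegree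
      rw [h6, h5.tsum_eq, prod_inv_distrib]
      congr 1
      have h7 : absPow P s = z ^ P.natDegree := by
        unfold absPow
        rw [hzd, ← Complex.cpow_mul_nat]
      have h8 := congrArg (fun p : ℂ[X] => p.eval (χ P * z ^ P.natDegree)) (hα P hP1 hP2).2.1
      simp only [eval_add, eval_sub, eval_mul, eval_one, eval_C, eval_X, eval_pow, eval_prod] at h8
      rw [h8, h7]
      apply prod_congr rfl
      intro j _
      ring
    · -- differentiable
      intro s
      refine DifferentiableAt.fun_sum ?_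
      intro k _
      refine DifferentiableAt.const_mul ?_ _
      refine DifferentiableAt.pow ?_ _
      exact DifferentiableAt.const_cpow differentiableAt_id.neg (Or.inl hq0C)
    · -- polynomial of degree `D`
      refine ⟨∑ k ∈ range (D + 1), C (e k) * X ^ k, ?_, ?_⟩
      · rw [hDtw]
        apply natDegree_eq_of_le_of_coeff_ne_zero
        · apply natDegree_sum_le_of_forall_le
          intro k hk
          rw [mem_range] at hk
          exact (natDegree_C_mul_X_pow_le _ _).trans (by omega)
        · rw [finsetSum_coeff, sum_eq_single D]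
          · rw [coeff_C_mul_X_pow, if_pos rfl]
            have h1 := hsym D 0 (by omega)
            rw [pow_zero, mul_one, he0, map_one, mul_one] at h1
            rw [h1]
            have h2 : ε χ ≠ 0 := by
              intro h3
              have := hε χ
              rw [h3, norm_zero] at this
              norm_num at this
            have h3 : (Real.sqrt (qq F) : ℂ) ≠ 0 := by
              have : 0 < Real.sqrt (qq F) := Real.sqrt_pos.2 hq0
              exact_mod_cast this.ne'
            exact mul_ne_zero h2 (pow_ne_zero _ h3)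
          · intro k _ hk
            rw [coeff_C_mul_X_pow, if_neg (Ne.symm hk)]
          · intro h
            exact absurd (mem_range.2 (Nat.lt_succ_self D)) h
      · intro s
        rw [eval_finsetSum]
        apply sum_congr rfl
        intro k _
        rw [eval_mul, eval_C, eval_pow, eval_X]
    · -- functional equation
      intro s
      rw [hDtw]
      have hr0 : (Real.sqrt (qq F) : ℂ) ≠ 0 := by
        have : 0 < Real.sqrt (qq F) := Real.sqrt_pos.2 hq0
        exact_mod_cast this.ne'
      have hrr : ∀ k : ℕ, (Real.sqrt (qq F) : ℂ) ^ k = (Fintype.card F : ℂ) ^ ((k : ℂ) / 2) := by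
        intro k
        rw [hqC, Real.sqrt_eq_rpow, Complex.ofReal_cpow hq0.le, ← Complex.cpow_mul_nat]
        congr 1
        push_cast
        ring
      show ∑ k ∈ range (D + 1), e k * ((Fintype.card F : ℂ) ^ (-s)) ^ k = ε χ *
        (Fintype.card F : ℂ) ^ ((D : ℂ) * (1 / 2 - s)) *
        conj (∑ k ∈ range (D + 1), e k * ((Fintype.card F : ℂ) ^ (-(1 - conj s))) ^ k)
      rw [map_sum, mul_sum, ← Finset.sum_range_reflect]
      apply sum_congr rfl
      intro k hk
      rw [mem_range] at hk
      have hk' : D + 1 - 1 - k = D - k := by omega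
      rw [hk', map_mul, map_pow]
      have h1 : conj ((Fintype.card F : ℂ) ^ (-(1 - conj s))) = (Fintype.card F : ℂ) ^ (-(1 - s)) := by
        have h5 := Complex.conj_cpow ((qq F : ℝ) : ℂ) (-(1 - s)) (by
          rw [Complex.arg_ofReal_of_nonneg hq0.le]
          exact Real.pi_pos.ne)
        rw [Complex.conj_ofReal, map_neg, map_sub, map_one] at h5
        rw [hqC, h5]
      rw [h1]
      have h2 := hsym (D - k) k (by omega)
      have h3 : e (D - k) = ε χ * ((Fintype.card F : ℂ) ^ (((D - k : ℕ) : ℂ) / 2) *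
          (Fintype.card F : ℂ) ^ (-((k : ℂ) / 2))) * conj (e k) := by
        rw [Complex.cpow_neg, ← hrr, ← hrr]
        field_simp
        linear_combination h2
      rw [h3, ← Complex.cpow_mul_nat, ← Complex.cpow_mul_nat, ← Complex.cpow_add _ _ hq0C]
      have h4 : (Fintype.card F : ℂ) ^ (((D - k : ℕ) : ℂ) / 2 + -((k : ℂ) / 2)) *
          (Fintype.card F : ℂ) ^ (-s * ((D - k : ℕ) : ℂ)) =
          (Fintype.card F : ℂ) ^ ((D : ℂ) * (1 / 2 - s)) * (Fintype.card F : ℂ) ^ (-(1 - s) * (k : ℂ)) := by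
        rw [← Complex.cpow_add _ _ hq0C, ← Complex.cpow_add _ _ hq0C]
        congr 1
        rw [Nat.cast_sub (by omega)]
        ring
      linear_combination (ε χ * conj (e k)) * h4

end Pool.Agent.Q284.PS
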