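import Pool.Agent.Q284.PS.Stm2

/-!
# Project PS: basic facts used in the assembly
-/

set_option autoImplicit false

open Finset Polynomial ComplexConjugate
open Pool.Agent.H341R2.Sharp (Mon mem_Mon)

namespace Pool.Agent.Q284.PS

section

variable {F : Type} [Field F]

theorem mem_PI [Fintype F] {n : ℕ} {P : F[X]} :
    P ∈ PI F n ↔ P.Monic ∧ P.natDegree = n ∧ Irreducible P := by
  classical
  unfold PI
  rw [mem_filter, mem_Mon, and_assoc]

theorem three_le_card [Fintype F] (h : ringChar F ≠ 2) : 3 ≤ Fintype.card F := by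
  have h1 : Fintype.card F % 2 = 1 := FiniteField.odd_card_of_char_ne_two h
  have h2 : 1 < Fintype.card F := Fintype.one_lt_card
  omega

theorem three_le_qq [Fintype F] (h : ringChar F ≠ 2) : 3 ≤ qq F := by
  unfold qq
  exact_mod_cast three_le_card h

theorem aF_congr {d : ℕ} {a b : F[X] → ℂ} {f : F[X]} (hf : f.Monic)
    (h : ∀ P : F[X], P.Monic → Irreducible P → P ∣ f → a P = b P) : aF d a f = aF d b f := by
  classical
  unfold aF
  apply prod_congr rfl
  intro P hP
  rw [Multiset.mem_toFinset] at hP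
  have h1 := (Polynomial.mem_normalizedFactors_iff hf.ne_zero).1 hP
  rw [h P h1.2.1 h1.1 h1.2.2]

theorem ee_congr [Fintype F] {d n : ℕ} {a b : F[X] → ℂ} (χ : F[X] → ℂ)
    (h : ∀ P : F[X], P.Monic → Irreducible P → P.natDegree ≤ n → a P = b P) :
    ee d a χ n = ee d b χ n := by
  unfold ee
  apply sum_congr rfl
  intro f hf
  rw [mem_Mon] at hf
  rw [aF_congr hf.1]
  intro P h1 h2 h3
  apply h P h1 h2
  rw [← hf.2]
  exact natDegree_le_of_dvd h3 hf.1.ne_zero

theorem norm_le_one {Q : F[X]} {l : ℕ} {χ : F[X] → ℂ} (h : Hay Q l χ) (f : F[X]) : ‖χ f‖ ≤ 1 := by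
  by_cases hf : f.Monic
  · by_cases h1 : IsCoprime f Q
    · rw [h.norm f hf h1]
    · rw [h.zero f hf h1]
      simp
  · rw [h.off f hf]
    simp

theorem nsq_nonneg {ι : Type} [Fintype ι] (c : ι → ℂ) : 0 ≤ nsq c :=
  sum_nonneg (fun _ _ => by positivity)

/-- change of the parameters in degree `n` only -/
theorem ee_change [Fintype F] {d n : ℕ} (hd : 2 ≤ d) (hn : 1 ≤ n) (hM : S_MUL) (hh1 : ∀ z : ℂ, ‖z‖ ≤ 1 / 4 → hh d z 1 = z)
    {a b : F[X] → ℂ} (χ : F[X] → ℂ)
    (h0 : ∀ P ∈ PI F n, a P = 0) (hb : ∀ P ∈ PI F n, ‖b P‖ ≤ 1 / 4)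
    (h : ∀ P : F[X], P.Monic → Irreducible P → P.natDegree < n → b P = a P) :
    ee d b χ n = ee d a χ n + ∑ P ∈ PI F n, b P * χ P := by
  classical
  have hsub : PI F n ⊆ Mon F n := by
    intro P hP
    rw [mem_PI] at hP
    rw [mem_Mon]
    exact ⟨hP.1, hP.2.1⟩
  unfold ee
  rw [← sum_sdiff hsub, ← sum_sdiff hsub]
  have hirr : ∀ (c : F[X] → ℂ) (P : F[X]), P ∈ PI F n → ‖c P‖ ≤ 1 / 4 → aF d c P = c P := by
    intro c P hP hc
    rw [mem_PI] at hP
    have := (hM F d c hd).2.2 P 1 hP.1 hP.2.2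
    rw [pow_one] at this
    rw [this, hh1 _ hc]
  have e1 : ∑ f ∈ Mon F n \ PI F n, aF d b f * χ f = ∑ f ∈ Mon F n \ PI F n, aF d a f * χ f := by
    apply sum_congr rfl
    intro f hf
    rw [mem_sdiff, mem_Mon, mem_PI] at hf
    rw [aF_congr hf.1.1]
    intro P h1 h2 h3
    apply h P h1 h2
    have hle : P.natDegree ≤ f.natDegree := natDegree_le_of_dvd h3 hf.1.1.ne_zero
    rcases lt_or_eq_of_le hle with h4 | h4
    · rw [← hf.1.2]
      exact h4
    · exfalso
      obtain ⟨g, hg⟩ := h3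
      have hgm : g.Monic := by
        have h5 := hf.1.1
        rw [hg] at h5
        exact h1.of_mul_monic_left h5
      have h6 : f.natDegree = P.natDegree + g.natDegree := by
        rw [hg, h1.natDegree_mul hgm]
      have h7 : g.natDegree = 0 := by omega
      have h8 : g = 1 := hgm.natDegree_eq_zero.1 h7
      rw [h8, mul_one] at hg
      apply hf.2
      rw [hg]
      exact ⟨h1, by rw [← hg]; exact hf.1.2, h2⟩
  have e2 : ∑ f ∈ PI F n, aF d b f * χ f = ∑ P ∈ PI F n, b P * χ P := by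
    apply sum_congr rfl
    intro P hP
    rw [hirr b P hP (hb P hP)]
  have e3 : ∑ f ∈ PI F n, aF d a f * χ f = 0 := by
    apply sum_eq_zero
    intro P hP
    rw [hirr a P hP (by rw [h0 P hP]; norm_num), h0 P hP, zero_mul]
  rw [e1, e2, e3]
  ring

end

end Pool.Agent.Q284.PS
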