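import Pool.Agent.Q284.PS.Defs

/-!
# Project PS: definitions, part 2 (the Euler products)
-/

set_option autoImplicit false

open Finset Polynomial ComplexConjugate
open Pool.Agent.H341R2.Sharp (Mon)

namespace Pool.Agent.Q284.PS

/-- the local factor `1 - a X - s (conj a) X^(d-1) + s X^d`, `s = (-1)^d`, as a power series -/
noncomputable def loc (d : ℕ) (a : ℂ) : PowerSeries ℂ :=
  1 - PowerSeries.C a * PowerSeries.X - PowerSeries.C ((-1) ^ d * conj a) * PowerSeries.X ^ (d - 1) +
    PowerSeries.C ((-1) ^ d) * PowerSeries.X ^ d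

/-- the coefficients of the inverse of the local factor -/
noncomputable def hh (d : ℕ) (a : ℂ) (k : ℕ) : ℂ := PowerSeries.coeff k (loc d a)⁻¹

section Sums

variable {F : Type} [Field F]

open Classical in
/-- the coefficients of the Euler product with local parameters `a P` -/
noncomputable def aF (d : ℕ) (a : F[X] → ℂ) (f : F[X]) : ℂ :=
  ∏ P ∈ (UniqueFactorizationMonoid.normalizedFactors f).toFinset,
    hh d (a P) ((UniqueFactorizationMonoid.normalizedFactors f).count P)

/-- nonnegative multiplicative functions on the monic polynomials -/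
structure NMul (g : F[X] → ℝ) : Prop where
  one : g 1 = 1
  nonneg : ∀ f : F[X], f.Monic → 0 ≤ g f
  mul : ∀ f h : F[X], f.Monic → h.Monic → IsCoprime f h → g (f * h) = g f * g h

variable [Fintype F]

/-- coefficient `n` of the twisted `L`-series -/
noncomputable def ee (d : ℕ) (a : F[X] → ℂ) (χ : F[X] → ℂ) (n : ℕ) : ℂ :=
  ∑ f ∈ Mon F n, aF d a f * χ f

/-- the prime part -/
noncomputable def ss (a : F[X] → ℂ) (χ : F[X] → ℂ) (n : ℕ) : ℂ := ∑ P ∈ PI F n, a P * χ P

variable (F) in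
open Classical in
/-- the monic `f` of degree `n` all of whose prime factors have degree at most `n / 2` -/
noncomputable def Sm (n : ℕ) : Finset F[X] :=
  (Mon F n).filter (fun f => ∀ P : F[X], P.Monic → Irreducible P → P ∣ f → 2 * P.natDegree ≤ n)

end Sums

/-- `⌈2 n / d⌉` -/
def HH (d n : ℕ) : ℕ := (2 * n + d - 1) / d

/-- weights -/
noncomputable def ww (q : ℝ) (d n : ℕ) : ℝ :=
  100 ^ (HH d n) * q ^ ((5 : ℝ) * n / 8) / (n : ℝ) ^ ((5 : ℝ) / 2)

/-- weights for the squares -/
noncomputable def om (q : ℝ) (d n : ℕ) : ℝ := 10000 ^ (HH d n) * q ^ ((n : ℝ) / 4) / (n : ℝ) ^ 4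

/-- the small constant -/
noncomputable def BB : ℝ := 1 / 25600

/-- the conditions on the local parameters up to degree `N`.  (Note
`BB * ww q d n = sqrt (q^n / n) * (BB * sqrt (om q d n))`.) -/
structure Good (F : Type) [Field F] [Fintype F] (d N : ℕ) (a : F[X] → ℂ) : Prop where
  zero : ∀ P : F[X], 2 * P.natDegree < d → a P = 0
  small : ∀ n : ℕ, n ≤ N → ∀ P ∈ PI F n, ‖a P‖ ≤ qq F ^ (-((n : ℝ) / 4))
  l2 : ∀ n : ℕ, 1 ≤ n → n ≤ N → ∑ P ∈ PI F n, ‖a P‖ ^ 2 ≤ BB ^ 2 * om (qq F) d n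

/-- the degree of the `L`-polynomial twisted by a primitive character of level `(Q, l)` -/
noncomputable def DD {F : Type} [Field F] (d L0 : ℕ) (Q : F[X]) (l : ℕ) : ℕ :=
  d * (Q.natDegree + max L0 l - 1)

/-- the primitive characters which give a condition in degree `n` -/
def XS (F : Type) [Field F] (d L0 n : ℕ) : Set (F[X] × ℕ × (F[X] → ℂ)) :=
  {p | Prim p.1 p.2.1 p.2.2 ∧ DD d L0 p.1 p.2.1 ≤ 2 * n}

/-- the value prescribed for coefficient `n`, `D ≤ 2 n` the degree of the `L`-polynomial -/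
noncomputable def tau {F : Type} [Field F] [Fintype F] (d : ℕ) (a : F[X] → ℂ) (ε : (F[X] → ℂ) → ℂ)
    (n D : ℕ) (χ : F[X] → ℂ) : ℂ :=
  if D < n ∨ D = 2 * n then 0
  else ε χ * (Real.sqrt (qq F) : ℂ) ^ (2 * n - D) * conj (ee d a χ (D - n))

end Pool.Agent.Q284.PS
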