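import Pool.Agent.Q284.PS.Main

/-!
# Project PS: the main theorem from the recursion step
-/

set_option autoImplicit false

open Finset Polynomial ComplexConjugate
open Pool.Agent.H341R2.Sharp (Mon mem_Mon)

namespace Pool.Agent.Q284.PS

/-- the main theorem together with the mean square bounds -/
def MAIN2 : Prop := ∃ d₀ : ℕ, ∀ d : ℕ, d₀ ≤ d → ∀ (F : Type) [Field F] [Fintype F],
  ringChar F ≠ 2 → ∀ L0 : ℕ, 2 ≤ L0 → ∀ ε : (F[X] → ℂ) → ℂ, (∀ χ, ‖ε χ‖ = 1) → ∃ a : F[X] → ℂ,
    (∀ N : ℕ, Good F d N a) ∧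
    (∀ P : F[X], P.Monic → Irreducible P → ‖a P‖ ≤ qq F ^ (-((P.natDegree : ℝ) / 4)) ∧ ‖a P‖ ≤ 1 / 4) ∧
    ∀ (Q : F[X]) (l : ℕ) (χ : F[X] → ℂ), Prim Q l χ →
      (∀ n : ℕ, DD d L0 Q l < n → ee d a χ n = 0) ∧
      ∀ n m : ℕ, n + m = DD d L0 Q l → m ≤ n →
        ee d a χ n = ε χ * (Real.sqrt (qq F) : ℂ) ^ (n - m) * conj (ee d a χ m)

theorem t_MAIN2 (hS : StepStm) : MAIN2 := by
  classical
  obtain ⟨d₀, hS⟩ := hS
  refine ⟨16 + d₀, ?_⟩
  intro d hd F _ _ hF L0 hL0 ε hε
  have hq3 : 3 ≤ qq F := three_le_qq hF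
  have hq0 : 0 < qq F := by linarith
  have step := hS d (by omega) F hF L0 hL0 ε hε
  choose! nx h1 h2 h3 using step
  let s : ℕ → F[X] → ℂ := fun n => Nat.rec (fun _ => 0) (fun n a => nx (n + 1) a) n
  have s0 : s 0 = fun _ => 0 := rfl
  have ss : ∀ n, s (n + 1) = nx (n + 1) (s n) := fun n => rfl
  have hgood : ∀ n, Good F d n (s n) := by
    intro n
    induction n with
    | zero =>
      rw [s0]
      refine ⟨fun _ _ => rfl, ?_, ?_⟩
      · intro m _ P _
        rw [norm_zero]
        positivity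
      · intro m h4 h5
        omega
    | succ n ih =>
      rw [ss]
      exact h1 (n + 1) (by omega) (s n) ih
  have hlt : ∀ n (P : F[X]), P.natDegree ≤ n → s (n + 1) P = s n P := by
    intro n P hP
    rw [ss]
    exact h2 (n + 1) (by omega) (s n) (hgood n) P (by omega)
  have hstab : ∀ n (P : F[X]), P.natDegree ≤ n → s n P = s P.natDegree P := by
    intro n P hP
    induction n with
    | zero =>
      have : P.natDegree = 0 := by omega
      rw [this]
    | succ n ih =>
      rcases Nat.lt_or_ge n P.natDegree with h4 | h4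
      · have : P.natDegree = n + 1 := by omega
        rw [this]
      · rw [hlt n P h4, ih h4]
  let a : F[X] → ℂ := fun P => s P.natDegree P
  have hee : ∀ (χ : F[X] → ℂ) (n N : ℕ), n ≤ N → ee d a χ n = ee d (s N) χ n := by
    intro χ n N hnN
    apply ee_congr
    intro P _ _ hP
    exact (hstab N P (by omega)).symm
  have hmain : ∀ (Q : F[X]) (l : ℕ) (χ : F[X] → ℂ), Prim Q l χ → ∀ n : ℕ, DD d L0 Q l ≤ 2 * n → 1 ≤ n →
      ee d a χ n = tau d a ε n (DD d L0 Q l) χ := by
    intro Q l χ hχ n hD hn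
    obtain ⟨m, rfl⟩ : ∃ m, n = m + 1 := ⟨n - 1, by omega⟩
    rw [hee χ (m + 1) (m + 1) le_rfl, ss, h3 (m + 1) (by omega) (s m) (hgood m) Q l χ hχ hD]
    unfold tau
    split_ifs with h4
    · rfl
    · push Not at h4
      rw [hee χ (DD d L0 Q l - (m + 1)) m (by omega)]
  refine ⟨a, ?_, ?_, ?_⟩
  · intro N
    refine ⟨fun P hP => (hgood P.natDegree).zero P hP, fun n hn P hP => ?_, fun n h4 hn => ?_⟩
    · have h5 := hP
      rw [mem_PI] at h5
      have h6 : a P = s n P := (hstab n P (by omega)).symm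
      rw [h6]
      exact (hgood n).small n le_rfl P hP
    · have h6 : ∀ P ∈ PI F n, ‖a P‖ ^ 2 = ‖s n P‖ ^ 2 := by
        intro P hP
        rw [mem_PI] at hP
        have h7 : a P = s n P := (hstab n P (by omega)).symm
        rw [h7]
      rw [sum_congr rfl h6]
      exact (hgood n).l2 n h4 le_rfl
  · intro P hP hPi
    have h4 : ‖a P‖ ≤ qq F ^ (-((P.natDegree : ℝ) / 4)) :=
      (hgood P.natDegree).small P.natDegree le_rfl P (mem_PI.2 ⟨hP, rfl, hPi⟩)
    refine ⟨h4, ?_⟩
    by_cases h5 : 2 * P.natDegree < d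
    · have : a P = 0 := (hgood P.natDegree).zero P h5
      rw [this, norm_zero]
      norm_num
    · refine h4.trans ?_
      have h6 : (8 : ℝ) ≤ (P.natDegree : ℝ) := by
        have : 8 ≤ P.natDegree := by omega
        exact_mod_cast this
      calc qq F ^ (-((P.natDegree : ℝ) / 4)) ≤ qq F ^ (-(2 : ℝ)) := by
            apply Real.rpow_le_rpow_of_exponent_le (by linarith)
            linarith
        _ = 1 / qq F ^ 2 := by
            rw [Real.rpow_neg hq0.le]
            norm_num
        _ ≤ 1 / 4 := by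
            apply one_div_le_one_div_of_le (by norm_num)
            nlinarith
  · intro Q l χ hχ
    have hDpos : 1 ≤ DD d L0 Q l := by
      unfold DD
      have : 1 ≤ Q.natDegree + max L0 l - 1 := by
        have := le_max_left L0 l
        omega
      have h7 : 1 ≤ d := by omega
      exact Nat.mul_pos h7 this
    refine ⟨?_, ?_⟩
    · intro n hn
      rw [hmain Q l χ hχ n (by omega) (by omega)]
      unfold tau
      rw [if_pos (Or.inl hn)]
    · intro n m hnm hmn
      rw [hmain Q l χ hχ n (by omega) (by omega)]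
      rcases lt_or_eq_of_le hmn with h4 | h4
      · unfold tau
        rw [if_neg (by omega)]
        have e1 : 2 * n - DD d L0 Q l = n - m := by omega
        have e2 : DD d L0 Q l - n = m := by omega
        rw [e1, e2]
      · subst h4
        rw [hmain Q l χ hχ m (by omega) (by omega)]
        unfold tau
        rw [if_pos (Or.inr (by omega))]
        simp

theorem t_MAIN (h : MAIN2) : S_MAIN := by
  obtain ⟨d₀, h⟩ := h
  refine ⟨d₀, fun d hd F _ _ hF L0 hL0 ε hε => ?_⟩
  obtain ⟨a, _, h1, h2⟩ := h d hd F hF L0 hL0 ε hε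
  exact ⟨a, h1, h2⟩

end Pool.Agent.Q284.PS
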