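import Pool.Agent.Q284.PS.Basic

/-!
# Project PS: the recursion on the degree
-/

set_option autoImplicit false

open Finset Polynomial ComplexConjugate
open Pool.Agent.H341R2.Sharp (Mon mem_Mon)

namespace Pool.Agent.Q284.PS

/-- the recursion step -/
def StepStm : Prop := ∃ d₀ : ℕ, ∀ d : ℕ, d₀ ≤ d → ∀ (F : Type) [Field F] [Fintype F],
  ringChar F ≠ 2 → ∀ L0 : ℕ, 2 ≤ L0 → ∀ ε : (F[X] → ℂ) → ℂ, (∀ χ, ‖ε χ‖ = 1) → ∀ n : ℕ, 1 ≤ n →
  ∀ a : F[X] → ℂ, Good F d (n - 1) a → ∃ a' : F[X] → ℂ, Good F d n a' ∧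
    (∀ P : F[X], P.natDegree < n → a' P = a P) ∧
    ∀ (Q : F[X]) (l : ℕ) (χ : F[X] → ℂ), Prim Q l χ → DD d L0 Q l ≤ 2 * n →
      ee d a' χ n = tau d a ε n (DD d L0 Q l) χ

section

variable {F : Type} [Field F] [Fintype F]

theorem om_nonneg {q : ℝ} (hq : 0 ≤ q) (d n : ℕ) : 0 ≤ om q d n := by
  unfold om
  positivity

theorem ww_nonneg {q : ℝ} (hq : 0 ≤ q) (d n : ℕ) : 0 ≤ ww q d n := by
  unfold ww
  positivity

/-- `ww² = (q^n / n) om` -/
theorem ww_sq {q : ℝ} (hq : 0 < q) (d n : ℕ) (hn : 1 ≤ n) :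
    ww q d n ^ 2 = q ^ n / n * om q d n := by
  have hn' : (0 : ℝ) < n := by exact_mod_cast hn
  unfold ww om
  rw [div_pow, mul_pow, ← pow_mul, ← Real.rpow_natCast (q ^ ((5 : ℝ) * n / 8)) 2,
    ← Real.rpow_mul hq.le, ← Real.rpow_natCast ((n : ℝ) ^ ((5 : ℝ) / 2)) 2, ← Real.rpow_mul hn'.le]
  have e1 : q ^ ((5 : ℝ) * n / 8 * ((2 : ℕ) : ℝ)) = q ^ n * q ^ ((n : ℝ) / 4) := by
    rw [← Real.rpow_natCast q n, ← Real.rpow_add hq]
    congr 1
    push_cast
    ring
  have e2 : (n : ℝ) ^ ((5 : ℝ) / 2 * ((2 : ℕ) : ℝ)) = (n : ℝ) ^ 5 := by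
    rw [← Real.rpow_natCast (n : ℝ) 5]
    congr 1
    norm_num
  have e3 : (100 : ℝ) ^ (HH d n * 2) = 10000 ^ (HH d n) := by
    rw [mul_comm, pow_mul]
    norm_num
  rw [e1, e2, e3]
  field_simp

/-- zero in degree `n` -/
noncomputable def cut (n : ℕ) (a : F[X] → ℂ) (P : F[X]) : ℂ := if P.natDegree = n then 0 else a P

omit [Fintype F] in
theorem cut_lt {n : ℕ} {a : F[X] → ℂ} {P : F[X]} (h : P.natDegree < n) : cut n a P = a P := by
  unfold cut
  rw [if_neg h.ne]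

theorem cut_good {d n : ℕ} (hn : 1 ≤ n) {a : F[X] → ℂ} (h : Good F d (n - 1) a) (hq : 0 < qq F) :
    Good F d n (cut n a) := by
  refine ⟨?_, ?_, ?_⟩
  · intro P hP
    unfold cut
    split_ifs
    · rfl
    · exact h.zero P hP
  · intro m hm P hP
    unfold cut
    split_ifs with h1
    · rw [norm_zero]
      positivity
    · refine h.small m ?_ P hP
      rw [mem_PI] at hP
      omega
  · intro m hm hmn
    by_cases h1 : m = n
    · have : ∑ P ∈ PI F m, ‖cut n a P‖ ^ 2 = 0 := by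
        apply sum_eq_zero
        intro P hP
        rw [mem_PI] at hP
        unfold cut
        rw [if_pos (by omega)]
        simp
      rw [this]
      have := om_nonneg hq.le d m
      positivity
    · have : ∑ P ∈ PI F m, ‖cut n a P‖ ^ 2 = ∑ P ∈ PI F m, ‖a P‖ ^ 2 := by
        apply sum_congr rfl
        intro P hP
        rw [mem_PI] at hP
        unfold cut
        rw [if_neg (by omega)]
      rw [this]
      exact h.l2 m hm (by omega)

end

theorem t_step (hLOC1 : S_LOC1) (hMUL : S_MUL) (hNO : S_NO) (hCNT : S_CNT) (hUNI : S_UNI)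
    (hLIN : S_LIN) (hEB : S_EB) (hTB : S_TB) (hTBN : S_TBN) : StepStm := by
  classical
  obtain ⟨d₁, hd₁, hNO⟩ := hNO
  obtain ⟨d₂, D₂, hEB⟩ := hEB
  obtain ⟨d₃, hTB⟩ := hTB
  obtain ⟨d₄, hTBN⟩ := hTBN
  refine ⟨16 + 6 * d₁ + 6 * D₂ + d₂ + d₃ + d₄, ?_⟩
  intro d hd F _ _ hF L0 hL0 ε hε n hn a ha
  have hq3 : 3 ≤ qq F := three_le_qq hF
  have hq0 : 0 < qq F := by linarith
  have hc := cut_good hn ha hq0
  have hh1 : ∀ z : ℂ, ‖z‖ ≤ 1 / 4 → hh d z 1 = z := by
    intro z hz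
    have := (hLOC1 d z (by omega) hz).2.1 1 le_rfl (by omega)
    rw [this, pow_one]
  have hDD : ∀ (Q : F[X]) (l : ℕ), d ≤ DD d L0 Q l := by
    intro Q l
    unfold DD
    have : 1 ≤ Q.natDegree + max L0 l - 1 := by
      have := le_max_left L0 l
      omega
    calc d = d * 1 := (mul_one d).symm
      _ ≤ _ := Nat.mul_le_mul_left d this
  by_cases hdn : 2 * n < d
  · refine ⟨cut n a, hc, fun P hP => cut_lt hP, ?_⟩
    intro Q l χ _ hD
    have := hDD Q l
    omega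
  push Not at hdn
  -- the finite set of the characters
  set N := 2 * n / d + 1 with hN
  have hd0 : 0 < d := by omega
  obtain ⟨hfin, hcard⟩ := hCNT F L0 N
  have hsub : XS F d L0 n ⊆ {p : F[X] × ℕ × (F[X] → ℂ) | Prim p.1 p.2.1 p.2.2 ∧
      p.1.natDegree + max L0 p.2.1 ≤ N} := by
    rintro p ⟨hp1, hp2⟩
    refine ⟨hp1, ?_⟩
    unfold DD at hp2
    have h1 : p.1.natDegree + max L0 p.2.1 - 1 ≤ 2 * n / d := by
      rw [Nat.le_div_iff_mul_le hd0]
      rw [mul_comm]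
      exact hp2
    omega
  have hXfin : (XS F d L0 n).Finite := hfin.subset hsub
  set X0 : Finset (F[X] × ℕ × (F[X] → ℂ)) := hXfin.toFinset with hX0
  have hmX : ∀ p, p ∈ X0 ↔ p ∈ XS F d L0 n := fun p => hXfin.mem_toFinset
  let ι : Type := {p // p ∈ X0}
  let chi : ι → F[X] → ℂ := fun i => i.1.2.2
  have hmem : ∀ i : ι, Prim i.1.1 i.1.2.1 i.1.2.2 ∧ DD d L0 i.1.1 i.1.2.1 ≤ 2 * n := by
    intro i
    exact (hmX i.1).1 i.2
  have hFam : Fam N chi := by
    refine ⟨?_, ?_⟩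
    · intro i
      refine ⟨i.1.1, i.1.2.1, (hmem i).1.1, ?_⟩
      have h1 := (hsub ((hmX i.1).1 i.2)).2
      have h2 := le_max_right L0 i.1.2.1
      omega
    · intro i j hij
      by_contra hcon
      push Not at hcon
      obtain ⟨h1, h2, h3⟩ := hUNI F i.1.1 j.1.1 i.1.2.1 j.1.2.1 i.1.2.2 j.1.2.2 (hmem i).1 (hmem j).1
        hcon
      apply hij
      apply Subtype.ext
      exact Prod.ext h1 (Prod.ext h2 h3)
  -- sizes
  have hdiv : d * (2 * n / d) ≤ 2 * n := Nat.mul_div_le (2 * n) d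
  have hsize : ∀ k : ℕ, 6 * k ≤ d → k * (N + 1) ≤ n := by
    intro k hk
    have h1 : d * (N + 1) ≤ 6 * n := by
      have : d * (N + 1) = d * (2 * n / d) + 2 * d := by rw [hN]; ring
      omega
    have h2 : 6 * k * (N + 1) ≤ d * (N + 1) := Nat.mul_le_mul_right _ hk
    nlinarith
  have hlo : ∀ c : ι → ℂ, 1 / 2 * (qq F ^ n / n) * nsq c ≤ ∑ P ∈ PI F n, ‖∑ i, c i * chi i P‖ ^ 2 :=
    fun c => (hNO F hF N n ι chi hFam (hsize d₁ (by omega)) c).1
  have hn' : (0 : ℝ) < n := by exact_mod_cast hn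
  have hlo0 : 0 < 1 / 2 * (qq F ^ n / n) := by positivity
  -- the right-hand sides
  let t : ι → ℂ := fun i => tau d a ε n (DD d L0 i.1.1 i.1.2.1) i.1.2.2 - ee d (cut n a) (chi i) n
  have hss : ∀ i : ι, ss (cut n a) (chi i) n = 0 := by
    intro i
    unfold ss
    apply sum_eq_zero
    intro P hP
    rw [mem_PI] at hP
    unfold cut
    rw [if_pos hP.2.1, zero_mul]
  have hww : 0 ≤ ww (qq F) d n := ww_nonneg hq0.le d n
  have hBB : 0 ≤ BB := by unfold BB; norm_num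
  have hw : 0 ≤ BB * ww (qq F) d n := mul_nonneg hBB hww
  have hee : ∑ i : ι, ‖ee d (cut n a) (chi i) n‖ ^ 2 ≤ (1 / 4 * BB * ww (qq F) d n) ^ 2 := by
    have h1 := (hEB d (by omega) F hF n (cut n a) hc n le_rfl hdn N ι chi hFam
      (hsize D₂ (by omega))).2
    simp only [hss, sub_zero] at h1
    have h2 : 0 ≤ ∑ i : ι, ‖ee d (cut n a) (chi i) n‖ ^ 2 := sum_nonneg (fun _ _ => by positivity)
    calc ∑ i : ι, ‖ee d (cut n a) (chi i) n‖ ^ 2
        = Real.sqrt (∑ i : ι, ‖ee d (cut n a) (chi i) n‖ ^ 2) ^ 2 := (Real.sq_sqrt h2).symm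
      _ ≤ _ := by gcongr
  have htau : ∑ i : ι, ‖tau d a ε n (DD d L0 i.1.1 i.1.2.1) i.1.2.2‖ ^ 2 ≤
      (1 / 5 * BB * ww (qq F) d n) ^ 2 := by
    have h1 := hTB d (by omega) F hF L0 n a hL0 ha ε hε X0 (fun p hp => (hmX p).1 hp)
    rw [← Finset.sum_coe_sort] at h1
    exact h1
  have hnt : nsq t ≤ 41 / 200 * (BB * ww (qq F) d n) ^ 2 := by
    have h1 : nsq t ≤ ∑ i : ι, (2 * ‖tau d a ε n (DD d L0 i.1.1 i.1.2.1) i.1.2.2‖ ^ 2 +
        2 * ‖ee d (cut n a) (chi i) n‖ ^ 2) := by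
      unfold nsq
      apply sum_le_sum
      intro i _
      have h2 : ‖t i‖ ≤ ‖tau d a ε n (DD d L0 i.1.1 i.1.2.1) i.1.2.2‖ +
          ‖ee d (cut n a) (chi i) n‖ := norm_sub_le _ _
      have h3 := norm_nonneg (t i)
      nlinarith [sq_nonneg (‖tau d a ε n (DD d L0 i.1.1 i.1.2.1) i.1.2.2‖ -
        ‖ee d (cut n a) (chi i) n‖)]
    rw [sum_add_distrib, ← mul_sum, ← mul_sum] at h1
    nlinarith
  have hchi1 : ∀ i : ι, ∀ x ∈ PI F n, ‖chi i x‖ ≤ 1 := by
    intro i x _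
    exact norm_le_one (hmem i).1.1 x
  obtain ⟨b, hb1, hb2, hb3⟩ := hLIN F[X] (PI F n) ι chi (1 / 2 * (qq F ^ n / n)) t hlo0 hchi1 hlo
  -- pointwise bound
  have hsmall : ∀ P ∈ PI F n, ‖b P‖ ≤ qq F ^ (-((n : ℝ) / 4)) := by
    intro P hP
    refine (hb3 P hP).trans ?_
    refine le_trans ?_ (hTBN d (by omega) (qq F) n hq3 hdn).2.2.2
    have h1 : (Fintype.card ι : ℝ) ≤ (4 * qq F ^ ((2 : ℝ) * n / d)) ^ 2 := by
      have e1 : Fintype.card ι = (XS F d L0 n).ncard := by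
        rw [Set.ncard_eq_toFinset_card _ hXfin]
        exact Fintype.card_coe _
      have e2 : (XS F d L0 n).ncard ≤ _ := Set.ncard_le_ncard hsub hfin
      rw [e1]
      have e3 : ((XS F d L0 n).ncard : ℝ) ≤ ({p : F[X] × ℕ × (F[X] → ℂ) | Prim p.1 p.2.1 p.2.2 ∧
        p.1.natDegree + max L0 p.2.1 ≤ N}.ncard : ℝ) := by exact_mod_cast e2
      refine e3.trans ?_
      set M : ℝ := ({p : F[X] × ℕ × (F[X] → ℂ) | Prim p.1 p.2.1 p.2.2 ∧
        p.1.natDegree + max L0 p.2.1 ≤ N}.ncard : ℝ) with hM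
      have hM0 : 0 ≤ M := by positivity
      have e4 : M * qq F ^ 2 ≤ 4 * qq F ^ (2 * N) := by
        refine le_trans ?_ hcard
        gcongr
        · linarith
      have e5 : qq F ^ (2 * N) = (qq F ^ (2 * n / d)) ^ 2 * qq F ^ 2 := by
        rw [hN]
        ring
      have e6 : M ≤ 4 * (qq F ^ (2 * n / d)) ^ 2 := by
        rw [e5] at e4
        have : 0 < qq F ^ 2 := by positivity
        nlinarith
      have e7 : qq F ^ (2 * n / d) ≤ qq F ^ ((2 : ℝ) * n / d) := by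
        rw [← Real.rpow_natCast (qq F) (2 * n / d)]
        apply Real.rpow_le_rpow_of_exponent_le (by linarith)
        have : ((2 * n / d : ℕ) : ℝ) ≤ ((2 * n : ℕ) : ℝ) / (d : ℝ) := Nat.cast_div_le
        push_cast at this
        exact this
      have e8 : 0 ≤ qq F ^ (2 * n / d) := by positivity
      calc M ≤ 4 * (qq F ^ (2 * n / d)) ^ 2 := e6
        _ ≤ 4 * (qq F ^ ((2 : ℝ) * n / d)) ^ 2 := by gcongr
        _ ≤ (4 * qq F ^ ((2 : ℝ) * n / d)) ^ 2 := by nlinarith [sq_nonneg (qq F ^ ((2 : ℝ) * n / d))]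
    have h2 : Real.sqrt (Fintype.card ι) ≤ 4 * qq F ^ ((2 : ℝ) * n / d) := by
      rw [Real.sqrt_le_left (by positivity)]
      exact h1
    have h3 : Real.sqrt (nsq t) ≤ 1 / 2 * BB * ww (qq F) d n := by
      rw [Real.sqrt_le_left (by positivity)]
      nlinarith [sq_nonneg (BB * ww (qq F) d n)]
    gcongr
  have hq14 : qq F ^ (-((n : ℝ) / 4)) ≤ 1 / 4 := by
    have h1 : (8 : ℝ) ≤ n := by
      have : 8 ≤ n := by omega
      exact_mod_cast this
    calc qq F ^ (-((n : ℝ) / 4)) ≤ qq F ^ (-(2 : ℝ)) := by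
          apply Real.rpow_le_rpow_of_exponent_le (by linarith)
          linarith
      _ = 1 / qq F ^ 2 := by
          rw [Real.rpow_neg hq0.le]
          norm_num
      _ ≤ 1 / 4 := by
          apply one_div_le_one_div_of_le (by norm_num)
          nlinarith
  -- the new parameters
  let a' : F[X] → ℂ := fun P => if P ∈ PI F n then b P else cut n a P
  have ha'lt : ∀ P : F[X], P.natDegree < n → a' P = a P := by
    intro P hP
    have h1 : P ∉ PI F n := by
      rw [mem_PI]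
      intro h
      omega
    simp only [a', if_neg h1]
    exact cut_lt hP
  have ha'n : ∀ P ∈ PI F n, a' P = b P := by
    intro P hP
    simp only [a', if_pos hP]
  refine ⟨a', ⟨?_, ?_, ?_⟩, ha'lt, ?_⟩
  · intro P hP
    have h1 : P ∉ PI F n := by
      rw [mem_PI]
      intro h
      omega
    simp only [a', if_neg h1]
    exact hc.zero P hP
  · intro m hm P hP
    by_cases h1 : m = n
    · subst h1
      rw [ha'n P hP]
      exact hsmall P hP
    · rw [ha'lt P (by rw [mem_PI] at hP; omega)]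
      exact ha.small m (by omega) P hP
  · intro m hm hmn
    by_cases h1 : m = n
    · subst h1
      rw [sum_congr rfl (fun P hP => by rw [ha'n P hP])]
      refine hb2.trans ?_
      rw [div_le_iff₀ hlo0]
      have h2 := ww_sq hq0 d m hn
      have h3 : (BB * ww (qq F) d m) ^ 2 = BB ^ 2 * om (qq F) d m * (qq F ^ m / m) := by
        rw [mul_pow, h2]
        ring
      rw [h3] at hnt
      have h4 : 0 ≤ BB ^ 2 * om (qq F) d m * (qq F ^ m / m) := by
        have := om_nonneg hq0.le d m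
        positivity
      nlinarith
    · rw [sum_congr rfl (fun P hP => by rw [ha'lt P (by rw [mem_PI] at hP; omega)])]
      exact ha.l2 m hm (by omega)
  · intro Q l χ hχ hD
    have hin : (Q, l, χ) ∈ X0 := (hmX _).2 ⟨hχ, hD⟩
    have h1 := hb1 ⟨(Q, l, χ), hin⟩
    have h2 : ee d a' χ n = ee d (cut n a) χ n + ∑ P ∈ PI F n, a' P * χ P := by
      apply ee_change (by omega) hn hMUL hh1 χ
      · intro P hP
        rw [mem_PI] at hP
        unfold cut
        rw [if_pos hP.2.1]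
      · intro P hP
        rw [ha'n P hP]
        exact (hsmall P hP).trans hq14
      · intro P _ _ hP
        rw [ha'lt P hP, cut_lt hP]
    rw [h2, sum_congr rfl (fun P hP => by rw [ha'n P hP])]
    have h3 : ∑ P ∈ PI F n, b P * χ P = tau d a ε n (DD d L0 Q l) χ - ee d (cut n a) χ n := h1
    rw [h3]
    ring

end Pool.Agent.Q284.PS
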