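import Pool.Agent.Q284.PS.Stm2
import Pool.Agent.Q277.PS.Fac

/-!
# Project PS: two small lemmas
-/

set_option autoImplicit false

open Finset Polynomial ComplexConjugate
open Pool.Agent.H341R2.Sharp (Mon mem_Mon)

namespace Pool.Agent.Q284.PS

theorem t_GI : S_GI := by
  intro G z w ζ K N hζ hζK hG0 hG hz hw hconv hzw hrec n
  induction n using Nat.strong_induction_on with
  | _ n ih =>
    intro hn hnN
    have hn' : (0 : ℝ) < n := by exact_mod_cast hn
    have h1 := hrec n hn hnN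
    have hsplit : ∑ j ∈ Icc 1 n, (j : ℝ) * z j * G (n - j) =
        ∑ j ∈ Icc 1 (n - 1), (j : ℝ) * z j * G (n - j) + n * z n := by
      obtain ⟨m, rfl⟩ : ∃ m, n = m + 1 := ⟨n - 1, by omega⟩
      rw [Finset.sum_Icc_succ_top (by omega), Nat.sub_self, hG0, mul_one]
      rfl
    have h2 : ∑ j ∈ Icc 1 (n - 1), (j : ℝ) * z j * G (n - j) ≤
        ∑ j ∈ Icc 1 (n - 1), (n : ℝ) * (5 / 4 * ζ ^ 2) * (w j * w (n - j)) := by
      apply sum_le_sum
      intro j hj
      rw [mem_Icc] at hj
      have h3 : z j ≤ ζ * w j := hzw j hj.1 (by omega)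
      have h4 : G (n - j) ≤ 5 / 4 * ζ * w (n - j) := ih (n - j) (by omega) (by omega) (by omega)
      have h5 : (j : ℝ) ≤ n := by
        have : j ≤ n := by omega
        exact_mod_cast this
      have h6 : z j * G (n - j) ≤ (ζ * w j) * (5 / 4 * ζ * w (n - j)) :=
        mul_le_mul h3 h4 (hG _) (mul_nonneg hζ (hw _))
      have h7 : 0 ≤ z j * G (n - j) := mul_nonneg (hz _) (hG _)
      have h8 : (0 : ℝ) ≤ j := by positivity
      calc (j : ℝ) * z j * G (n - j) = j * (z j * G (n - j)) := by ring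
        _ ≤ n * ((ζ * w j) * (5 / 4 * ζ * w (n - j))) := mul_le_mul h5 h6 h7 hn'.le
        _ = _ := by ring
    rw [← mul_sum] at h2
    have h3 := hconv n hn hnN
    have h4 := hzw n hn hnN
    have h5 : (n : ℝ) * (5 / 4 * ζ ^ 2) * ∑ i ∈ Icc 1 (n - 1), w i * w (n - i) ≤
        (n : ℝ) * (5 / 4 * ζ ^ 2) * (K * w n) := mul_le_mul_of_nonneg_left h3 (by positivity)
    have h6 : (n : ℝ) * G n ≤ n * ((5 / 4 * ζ) * (ζ * K) * w n + ζ * w n) := by
      calc (n : ℝ) * G n ≤ _ := h1
        _ = _ := hsplit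
        _ ≤ (n : ℝ) * (5 / 4 * ζ ^ 2) * (K * w n) + n * (ζ * w n) := by
            apply add_le_add (h2.trans h5)
            exact mul_le_mul_of_nonneg_left h4 hn'.le
        _ = _ := by ring
    have h7 : G n ≤ (5 / 4 * ζ) * (ζ * K) * w n + ζ * w n := le_of_mul_le_mul_left h6 hn'
    have h8 : (5 / 4 * ζ) * (ζ * K) * w n ≤ (5 / 4 * ζ) * (1 / 8) * w n := by
      apply mul_le_mul_of_nonneg_right _ (hw n)
      exact mul_le_mul_of_nonneg_left hζK (by positivity)
    have h9 : 0 ≤ ζ * w n := mul_nonneg hζ (hw n)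
    nlinarith

theorem hh_zero' (d : ℕ) (a : ℂ) (hd : 2 ≤ d) : hh d a 0 = 1 := by
  unfold hh
  rw [PowerSeries.coeff_zero_eq_constantCoeff_apply, PowerSeries.constantCoeff_inv]
  have h1 : (0 : ℕ) ≠ d - 1 := by omega
  have h2 : (0 : ℕ) ≠ d := by omega
  unfold loc
  simp [h1.symm, h2.symm]

theorem t_MUL : S_MUL := by
  classical
  intro F _ d a hd
  refine ⟨?_, ?_, ?_⟩
  · unfold aF
    rw [UniqueFactorizationMonoid.normalizedFactors_one]
    simp
  · intro f g hf hg hfg
    exact Pool.Agent.Q277.PS.aF_mul d a f g hf.ne_zero hg.ne_zero hfg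
  · intro P k hP hI
    unfold aF
    rw [UniqueFactorizationMonoid.normalizedFactors_pow,
      UniqueFactorizationMonoid.normalizedFactors_irreducible hI, hP.normalize_eq_self]
    rcases Nat.eq_zero_or_pos k with h | h
    · subst h
      rw [zero_smul, Multiset.toFinset_zero, prod_empty, hh_zero' d _ hd]
    · rw [Multiset.toFinset_nsmul _ _ h.ne', Multiset.toFinset_singleton, prod_singleton,
        Multiset.count_nsmul, Multiset.count_singleton_self, mul_one]

end Pool.Agent.Q284.PS
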