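import Pool.Agent.Q284.PS.Defs2

/-!
# Project PS: statements, part 0 (small independent lemmas)
-/

set_option autoImplicit false

open Finset Polynomial ComplexConjugate
open Pool.Agent.H341R2.Sharp (Mon lam)

namespace Pool.Agent.Q284.PS

/-! ## The Brun-Hooley sieve (abstract form) -/

open Classical in
/-- upper weights: `(-1)^|D|` for the sets with at most `2 (b + j)` members in block `j` for all `j` -/
noncomputable def nuU {α : Type} (blk : α → ℕ) (b : ℕ) (D : Finset α) : ℝ :=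
  if ∀ j : ℕ, (D.filter (fun x => blk x = j)).card ≤ 2 * (b + j) then (-1) ^ D.card else 0

open Classical in
/-- lower weights (`J` is larger than all block numbers) -/
noncomputable def nuL {α : Type} (blk : α → ℕ) (b J : ℕ) (D : Finset α) : ℝ :=
  nuU blk b D + ∑ j ∈ range J,
    if (D.filter (fun x => blk x = j)).card = 2 * (b + j) + 1 ∧
      ∀ i : ℕ, i ≠ j → (D.filter (fun x => blk x = i)).card ≤ 2 * (b + i) then (-1) ^ D.card else 0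

/-- **BHA** (pointwise).  Proof.  `ω_j` = number of members of `S` in block `j`, `b_j = b + j`,
`u_j = ∑_{i ≤ 2 b_j} (-1)^i C(ω_j, i)` (`= C(ω_j - 1, 2 b_j)` if `ω_j ≥ 1`, `= 1` if `ω_j = 0`), `x_j = 1` if
`ω_j = 0`, else `0`: `0 ≤ x_j ≤ u_j`, `u_j - x_j ≤ C(ω_j, 2 b_j + 1)`.  A subset `D` of `S` is the same as a
family of subsets of the blocks: `∑_{D ⊆ S} nuU D = ∏_{j < J} u_j`,
`∑_{D ⊆ S} nuL D = ∏ u_j - ∑_j C(ω_j, 2 b_j + 1) ∏_{i ≠ j} u_i`, and `∏ x_j = 1` if `S = ∅`, else `0`;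
telescoping `∏ u_j - ∏ x_j ≤ ∑_j (u_j - x_j) ∏_{i ≠ j} u_i`. -/
def S_BHA : Prop := ∀ (α : Type) (S : Finset α) (blk : α → ℕ) (b J : ℕ), (∀ x ∈ S, blk x < J) →
  ∑ D ∈ S.powerset, nuL blk b J D ≤ (if S.Nonempty then 0 else 1) ∧
  (if S.Nonempty then 0 else 1) ≤ ∑ D ∈ S.powerset, nuU blk b D

/-- **BHB** (mean values).  Proof.  `E_i^j` = elementary symmetric function of degree `i` of the `x P`, `P` in
block `j` of `S`; `U_j = ∑_{i ≤ 2 b_j} (-1)^i E_i^j`, `V_j = ∏_{P in block j} (1 - x P)`.  Then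
`∑_{D ⊆ S} nuU D ∏_D x = ∏_j U_j`, the difference is `∑_j E_{2 b_j + 1}^j ∏_{i ≠ j} U_i`.
`0 ≤ U_j - V_j ≤ E_{2 b_j + 1}^j` (induction on the block: if `W(S, k) = ∑_{i ≤ k} (-1)^i E_i(S)`, then
`W(S ∪ {P}, k) = W(S, k) - x_P W(S, k-1) = (1 - x_P) W(S, k) + (-1)^k x_P E_k(S)`; so for `k` even
`W(k) ≥ V`, for `k` odd `W(k) ≤ V`), `E_i^j ≤ (S_j)^i / i! ≤ 3^i / i!`, `V_j ≥ exp (-2 S_j) ≥ e^(-6)`.
So `V_j ≤ U_j ≤ V_j (1 + e^6 3^(2 b_j + 1) / (2 b_j + 1)!)`, `∏ U_j ≤ C₁ V` with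
`C₁ = exp (∑_j e^6 3^(2 b_j + 1)/(2 b_j + 1)!) ≤ exp (e^9)`, and the difference is
`≤ C₁ V e^6 ∑_j 3^(2b+2j+1)/(2b+2j+1)! ≤ C₂ V e^(-b)` (`3^m/m! ≤ exp (3 sqrt e) e^(-m/2)`). -/
def S_BHB : Prop := ∃ C : ℝ, 0 < C ∧ ∀ (α : Type) (S : Finset α) (blk : α → ℕ) (b J : ℕ) (x : α → ℝ),
  (∀ P ∈ S, blk P < J) → (∀ P ∈ S, 0 ≤ x P ∧ x P ≤ 1 / 2) →
  (open Classical in ∀ j : ℕ, ∑ P ∈ S.filter (fun P => blk P = j), x P ≤ 3) →
  ∑ D ∈ S.powerset, nuU blk b D * ∏ P ∈ D, x P ≤ C * ∏ P ∈ S, (1 - x P) ∧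
  ∑ D ∈ S.powerset, nuU blk b D * ∏ P ∈ D, x P - ∑ D ∈ S.powerset, nuL blk b J D * ∏ P ∈ D, x P ≤
    C * Real.exp (-b) * ∏ P ∈ S, (1 - x P)

/-- **MER** (Mertens).  Uses CPR (`∑_{deg P ∣ k} deg P = q^k`, so `|PI m| ≤ q^m / m`).  Proof.  First:
`∏ (1 - 1/|P|)^(-1) ≥ ∑_{deg f ≤ y} 1/|f| = y + 1` (unique factorisation; or by induction on the truncated Euler
product; every monic `f` of degree `≤ y` is a product of the primes of degree `≤ y`).  Second: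
`∑_{m : y < 2^(j+1) m, 2^j m ≤ y} q^m/m · q^(-m) = ∑ 1/m ≤ 3` (the `m` lie in `(z/2, z]`, `z = y/2^j`; at most
`z/2 + 1` integers, each `1/m < 2/z`; empty if `z < 1`). -/
def S_MER : Prop := ∀ (F : Type) [Field F] [Fintype F] (y : ℕ), 1 ≤ y →
  ∏ m ∈ Icc 1 y, (1 - 1 / qq F ^ m) ^ (PI F m).card ≤ 1 / (y : ℝ) ∧
  ∀ j : ℕ, ∑ m ∈ (Icc 1 y).filter (fun m => y < 2 ^ (j + 1) * m ∧ 2 ^ j * m ≤ y),
    ((PI F m).card : ℝ) / qq F ^ m ≤ 3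

/-! ## Chinese remainder theorem, induced characters -/

/-- **CRT**.  Proof.  `M = lcm(Q, Q')` monic, `v` with `deg v < deg M`, `v ≡ f` mod `Q`, `v ≡ g` mod `Q'`
(possible since every common divisor of `Q`, `Q'` divides `f - g`; Bezout for the gcd).  `h = v + M w`, `w` monic
of degree `l + 1` whose first coefficients are chosen such that `M.reverse * w.reverse ≡ u.reverse` mod
`X^(l+1)` (`M.reverse` has constant term one, so it is invertible mod `X^(l+1)`); since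
`deg v < deg M = deg h - (l + 1)`, `h.reverse ≡ (M w).reverse` mod `X^(l+1)`. -/
def S_CRT : Prop := ∀ (F : Type) [Field F] (Q Q' f g u : F[X]) (l : ℕ), Q.Monic → Q'.Monic → u.Monic →
  (∀ G : F[X], G ∣ Q → G ∣ Q' → G ∣ f - g) →
  ∃ h : F[X], h.Monic ∧ Q ∣ h - f ∧ Q' ∣ h - g ∧ X ^ (l + 1) ∣ h.reverse - u.reverse

/-- **ETA** (descent of the level).  Uses CRT.  Proof.  (1) For `f` monic prime to `G` there is a monic `f₁`
prime to `Q Q'` with `G ∣ f₁ - f`, `X^(l₀+1) ∣ f₁.reverse - f.reverse`: CRT with `G` and the product `N` of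
the primes dividing `Q Q'` but not `G`, `f₁ ≡ f` mod `G`, `f₁ ≡ 1` mod `N`.  Put `η f = χ f₁`: independent
of the choice by the hypothesis, multiplicative, norm one, depends only on the class; `η f = 0` for the others.
(2) For `f` monic prime to `Q`: let `f₂` be monic, prime to `Q Q'`, `Q ∣ f₂ - f`,
`X^(l+1) ∣ f₂.reverse - f.reverse` (CRT as in (1)); `χ f = χ f₂ = η f` (second equality: the hypothesis). -/
def S_ETA : Prop := ∀ (F : Type) [Field F] (Q Q' G : F[X]) (l l₀ : ℕ) (χ : F[X] → ℂ), Hay Q l χ →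
  Q'.Monic → G.Monic → G ∣ Q → l₀ ≤ l →
  (∀ f g : F[X], f.Monic → g.Monic → IsCoprime f (Q * Q') → IsCoprime g (Q * Q') → G ∣ f - g →
    X ^ (l₀ + 1) ∣ f.reverse - g.reverse → χ f = χ g) →
  ∃ η : F[X] → ℂ, Hay G l₀ η ∧ ∀ f : F[X], f.Monic → IsCoprime f Q → χ f = η f

/-! ## Quadratic characters -/

open Classical in
/-- the Legendre symbol -/
noncomputable def leg {F : Type} [Field F] (P g : F[X]) : ℤ :=
  if P ∣ g then 0 else if ∃ h : F[X], P ∣ h ^ 2 - g then 1 else -1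

/-- **LGA** (quadratic characters modulo `Q`).  Proof.  `Q = ∏ P^e`.  For `P ∣ Q` let `κ_P(f) = κ(f*)`,
`f* ≡ f` mod `P^e`, `f* ≡ 1` mod `Q / P^e` (`f` prime to `P`): multiplicative, `κ = ∏ κ_P` at the `f` prime to `Q`.
If `f ≡ h²` mod `P` then `f ≡ h² (1 + P u)` mod `P^e`, `(1 + P u)^(q^N) ≡ 1` mod `P^e` for large `N` and `q^N` is
odd, so `κ_P(f) = κ_P(h)² κ_P(1 + P u) = 1`.  The product of two non-squares of the finite field `F[X]/P` is a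
square, so `κ_P` takes only one value at the nonsquares: `κ_P = 1` or `κ_P = leg P`. -/
def S_LGA : Prop := ∀ (F : Type) [Field F] [Fintype F], ringChar F ≠ 2 → ∀ (Q : F[X]) (κ : F[X] → ℤ),
  Q.Monic → (∀ f : F[X], IsCoprime f Q → κ f = 1 ∨ κ f = -1) →
  (∀ f g : F[X], IsCoprime f Q → IsCoprime g Q → κ (f * g) = κ f * κ g) →
  (∀ f g : F[X], IsCoprime f Q → Q ∣ f - g → κ f = κ g) →
  ∃ S : Finset F[X], (∀ P ∈ S, P.Monic ∧ Irreducible P ∧ P ∣ Q) ∧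
    ∀ f : F[X], IsCoprime f Q → κ f = ∏ P ∈ S, leg P f

/-- **LGB** (Legendre symbol and resultant).  Uses `H341R2.FieldSum` (`norm_gen`, `qc_norm`).  Proof.
`E = F[X]/P` (`AdjoinRoot P`), `x` the class of `X`, `minpoly F x = P`:
`leg P g = quadraticChar E (aeval x g) = quadraticChar F (N (aeval x g)) = quadraticChar F (resultant P g)` and
`resultant P g = (-1)^(deg P deg g) resultant g P`; `s = quadraticChar F (-1) ^ deg P`. -/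
def S_LGB : Prop := ∀ (F : Type) [Field F] [Fintype F] [DecidableEq F], ringChar F ≠ 2 → ∀ P : F[X],
  P.Monic → Irreducible P → ∃ s : ℤ, (s = 1 ∨ s = -1) ∧
    ∀ g : F[X], g.Monic → ¬ P ∣ g → leg P g = s ^ g.natDegree * lam P g

/-! ## Numerical inequalities (`d` large) -/

/-- **ZBN**.  Proof: `om j ≥ 10000^(2j/d) q^(j/4) / j^4`, `ww j ≥ 100^(2j/d) q^(5j/8) / j^(5/2)`, `j ≥ d ≥ d₀`,
`q ≥ 3`: the gain is `q^(j/8 - 4j/d) ≥ 3^(j/16)` against powers of `j`, the constants, and (first inequality)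
`10000^(j/d) ≤ 3^(j/16)`. -/
def S_ZBN : Prop := ∃ d₀ : ℕ, ∀ d : ℕ, d₀ ≤ d → ∀ (q : ℝ) (j : ℕ), 3 ≤ q → d ≤ j →
  j * (q ^ ((4 : ℝ) * j / d) + 10000 ^ ((j : ℝ) / d + 1) * q ^ ((j : ℝ) / 8)) ≤ BB * ww q d j ∧
  j * (q ^ ((4 : ℝ) * j / d) + 10000 ^ ((j : ℝ) / d + 1) * q ^ ((j : ℝ) / 8)) ≤
    BB ^ 2 * om q d j / (10 ^ 6 * j)

/-- **TBN**.  Proof.  `ww(n)² = 10^(4 HH n) q^(5n/4) / n^5`.  First: gain `q^(n/4 - 2n/d)`.  Second:
`ww(i)² q^(n-i) ≤ ww(n)² n^5 q^(-(n-i)/4)`, `n - i ≥ n/2`, gain `q^(n/8 - 3n/d)`.  Third: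
`ww(i)² q^(n-i) = ww(n)² 10^(4 (HH i - HH n)) q^(-(n-i)/4) (n/i)^5`, `(n/i)^5 ≤ 32`.  Fourth: gain
`q^(n/8 - 2n/d)` against `100^(HH n) ≤ 100^(2n/d + 1)`. -/
def S_TBN : Prop := ∃ d₀ : ℕ, ∀ d : ℕ, d₀ ≤ d → ∀ (q : ℝ) (n : ℕ), 3 ≤ q → d ≤ 2 * n →
  4 * q ^ ((2 : ℝ) * n / d) * q ^ n ≤ 1 / 1000 * (BB * ww q d n) ^ 2 ∧
  (∀ i : ℕ, 1 ≤ i → 2 * i ≤ n → ((n : ℝ) / d + 1) * (4 * q ^ ((3 : ℝ) * n / d) * q ^ (n - i) *
    (5 / 2 * BB * ww q d i) ^ 2) ≤ 1 / 1000 * (BB * ww q d n) ^ 2) ∧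
  (∀ i : ℕ, n < 2 * i → i < n → HH d i + 1 ≤ HH d n → q ^ (n - i) * (2 * BB * ww q d i) ^ 2 ≤
    128 / 10 ^ 4 * q ^ (-((n : ℝ) - i) / 4) * (BB * ww q d n) ^ 2) ∧
  4 * q ^ ((2 : ℝ) * n / d) * (1 / 2 * BB * ww q d n) / (1 / 2 * (q ^ n / n)) ≤ q ^ (-((n : ℝ) / 4))

/-! ## Matrices -/

open Classical in
/-- the bilinear form of the off-diagonal part of a matrix -/
noncomputable def offF {ι : Type} [Fintype ι] (M : ι → ι → ℂ) (u v : ι → ℂ) : ℂ :=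
  ∑ i, ∑ j, if i = j then 0 else u i * M i j * v j

/-- **POL** (polarisation).  `H(u, v) = ∑_{i≠j} u_i M_ij conj v_j = (1/4) ∑_k i^k H(u + i^k v, u + i^k v)`;
for `|u| = |v| = 1`: `≤ (1/4) κ ∑_k |u + i^k v|² = 2 κ`; scale (`u = 0` or `v = 0` trivial). -/
def S_POL : Prop := ∀ (ι : Type) [Fintype ι] (M : ι → ι → ℂ) (κ : ℝ), 0 ≤ κ →
  (∀ c : ι → ℂ, ‖offF M c (fun i => conj (c i))‖ ≤ κ * nsq c) →
  ∀ u v : ι → ℂ, ‖offF M u v‖ ≤ 2 * κ * Real.sqrt (nsq u) * Real.sqrt (nsq v)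

end Pool.Agent.Q284.PS
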